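import Pool.Agent.Lib.MP_640417_ag.Sm.Spec
import Pool.Agent.Lib.MP_640417_ag.Frob.IrrB
import Pool.Agent.Lib.MP_640417_ag.Full.Supp

/-!
# A function of small support generates a large space modulo coset functions
-/

namespace Pool.Agent.Lib.MP_640417_ag.Sm

open Module Finset MulAction NumberField Pool.Agent.Lib.MP_640417_ag
  Pool.Agent.Lib.MP_640417_ag.Far Pool.Agent.Lib.MP_640417_ag.Full
  Pool.Agent.Lib.MP_640417_ag.Sharp Pool.Agent.Lib.MP_640417_ag.Wc

private theorem bigOut_stab_inf {S G : Type} [Group G] [MulAction G S]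
    {R C : Submodule ℚ (S → ℚ)} (hR : IsStab G R) (hC : IsStab G C) : IsStab G (R ⊓ C) :=
  fun f hf γ => ⟨hR f hf.1 γ, hC f hf.2 γ⟩

private theorem bigOut_stab_perp {S G : Type} [Fintype S] [Group G] [MulAction G S]
    {R : Submodule ℚ (S → ℚ)} (hR : IsStab G R) : IsStab G (Frob.perp R) := by
  intro f hf γ
  rw [Frob.mem_perp] at hf ⊢
  intro x hx
  have h1 := hf _ (hR x hx γ⁻¹)
  rw [← h1]
  refine Fintype.sum_equiv (MulAction.toPerm γ) _ _ fun s => ?_
  show x s * f (γ • s) = x (γ⁻¹ • (γ • s)) * f (γ • s)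
  rw [inv_smul_smul]

/-- the size of the orbit of a subgroup containing the stabilizer -/
private theorem bigOut_card {S G : Type} [Fintype S] [Group G] [Finite G] [MulAction G S]
    [IsPretransitive G S] (s₀ : S) (N : Subgroup G) (hN : stabilizer G s₀ ≤ N) :
    Fintype.card S = N.index * Nat.card (orbit N s₀) := by
  have h1 : (stabilizer G s₀).index = Nat.card S := index_stabilizer_of_transitive G s₀
  have h2 : (stabilizer N s₀).index = Nat.card (orbit N s₀) := by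
    rw [index_stabilizer, Nat.card_coe_set_eq]
  have h3 : stabilizer N s₀ = (stabilizer G s₀).subgroupOf N := by
    ext x
    rfl
  have h4 := Subgroup.relIndex_mul_index hN
  rw [← Nat.card_eq_fintype_card, ← h1, ← h4, ← h2, h3, mul_comm]
  rfl

/-- restriction of functions to the orbit of a subgroup -/
private noncomputable def bigOut_res {S G : Type} [Group G] [MulAction G S] (s₀ : S)
    (N : Subgroup G) : (S → ℚ) →ₗ[ℚ] (orbit N s₀ → ℚ) :=
  LinearMap.funLeft ℚ ℚ Subtype.val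

private theorem bigOut_res_apply {S G : Type} [Group G] [MulAction G S] (s₀ : S)
    (N : Subgroup G) (f : S → ℚ) (s : orbit N s₀) : bigOut_res s₀ N f s = f s := rfl

private theorem bigOut_res_stab {S G : Type} [Group G] [MulAction G S] (s₀ : S)
    (N : Subgroup G) (R : Submodule ℚ (S → ℚ)) (hR : IsStab G R) :
    IsStab N (R.map (bigOut_res s₀ N)) := by
  rintro _ ⟨f, hf, rfl⟩ γ
  refine ⟨fun s => f ((γ : G) • s), hR f hf γ, ?_⟩
  funext s
  rfl

private theorem bigOut_line {S G : Type} [Fintype S] [Group G] [MulAction G S] (s₀ : S)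
    (N : Subgroup G) (R : Submodule ℚ (S → ℚ)) (hR : R ≤ cosetC s₀ N) :
    finrank ℚ (R.map (bigOut_res s₀ N)) ≤ 1 := by
  classical
  have hle : R.map (bigOut_res s₀ N) ≤ Submodule.span ℚ {fun _ => (1 : ℚ)} := by
    rintro _ ⟨f, hf, rfl⟩
    rw [Submodule.mem_span_singleton]
    refine ⟨f s₀, ?_⟩
    funext s
    obtain ⟨s, ν, rfl⟩ := s
    have h1 := hR hf 1 (ν : G) (by rw [inv_one, one_mul]; exact ν.2)
    rw [one_smul] at h1
    change f s₀ * 1 = f ((ν : G) • s₀)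
    rw [mul_one, h1]
  refine (Submodule.finrank_mono hle).trans ((finrank_span_le_card _).trans ?_)
  simp

theorem pBigOut : StBigOut := by
  classical
  intro S G _ _ _ _ _ s₀ N R v k hstab hR hv hvC hk
  obtain ⟨R₁, hR₁⟩ : ∃ R₁ : Submodule ℚ (S → ℚ), R₁ = R ⊓ cosetC s₀ N := ⟨_, rfl⟩
  obtain ⟨R₂, hR₂⟩ : ∃ R₂ : Submodule ℚ (S → ℚ), R₂ = R ⊓ Frob.perp R₁ := ⟨_, rfl⟩
  have hs₁ : IsStab G R₁ := by
    rw [hR₁]; exact bigOut_stab_inf hR (cosetC_stab s₀ N)
  have hs₂ : IsStab G R₂ := by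
    rw [hR₂]; exact bigOut_stab_inf hR (bigOut_stab_perp hs₁)
  have hdec : ∀ f ∈ R, ∃ r ∈ R₁, ∃ d ∈ R₂, r + d = f := by
    intro f hf
    obtain ⟨r, hr, d, hd, hrd⟩ := Frob.exists_decomp R₁ f
    have hdR : d ∈ R := by
      have h : d = f - r := by rw [← hrd]; abel
      rw [h]
      rw [hR₁] at hr
      exact R.sub_mem hf hr.1
    refine ⟨r, hr, d, ?_, hrd⟩
    rw [hR₂]
    exact ⟨hdR, hd⟩
  have hne : R₂ ≠ ⊥ := by
    obtain ⟨r, hr, d, hd, hrd⟩ := hdec v hv
    intro hbot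
    rw [hbot, Submodule.mem_bot] at hd
    rw [hd, add_zero] at hrd
    apply hvC
    rw [← hrd]
    rw [hR₁] at hr
    exact hr.2
  have hinf : R₂ ⊓ cosetC s₀ N = ⊥ := by
    rw [eq_bot_iff]
    rintro f ⟨hf, hfC⟩
    rw [hR₂] at hf
    have h1 : f ∈ R₁ := by rw [hR₁]; exact ⟨hf.1, hfC⟩
    have h3 := (Submodule.disjoint_def.mp (Frob.isCompl_perp R₁).disjoint) f h1 hf.2
    rw [h3]
    exact Submodule.zero_mem _
  refine ⟨R₂, by rw [hR₂]; exact inf_le_left, hs₂, hinf, hne, ?_⟩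
  -- a translate of `v` which is not constant on the orbit of `N`
  obtain ⟨γ, γ', hγ, hvγ⟩ : ∃ γ γ' : G, γ⁻¹ * γ' ∈ N ∧ v (γ • s₀) ≠ v (γ' • s₀) := by
    by_contra hcon
    apply hvC
    intro γ γ' h
    by_contra hne
    exact hcon ⟨γ, γ', h, hne⟩
  obtain ⟨w, hw⟩ : ∃ w : S → ℚ, w = fun s => v (γ • s) := ⟨_, rfl⟩
  have hwR : w ∈ R := by rw [hw]; exact hR v hv γ
  have hw0 : bigOut_res s₀ N w ≠ 0 := by
    intro h0
    have h1 := congrFun h0 ⟨s₀, mem_orbit_self s₀⟩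
    have h2 := congrFun h0 ⟨(⟨γ⁻¹ * γ', hγ⟩ : N) • s₀, mem_orbit _ _⟩
    rw [bigOut_res_apply, Pi.zero_apply, hw] at h1 h2
    apply hvγ
    change v (γ • s₀) = 0 at h1
    change v (γ • (γ⁻¹ * γ') • s₀) = 0 at h2
    rw [← mul_smul, mul_inv_cancel_left] at h2
    rw [h1, h2]
  have hwk : {s : S | w s ≠ 0}.ncard ≤ 4 * k := by
    refine le_trans ?_ hk
    refine Set.ncard_le_ncard_of_injOn (fun s => γ • s) ?_ ?_ (Set.toFinite _)
    · intro s hs
      rw [hw] at hs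
      exact hs
    · intro s _ s' _ h
      exact MulAction.injective γ h
  have hwk' : {s : orbit N s₀ | bigOut_res s₀ N w s ≠ 0}.ncard ≤ 4 * k := by
    refine le_trans ?_ hwk
    refine Set.ncard_le_ncard_of_injOn Subtype.val ?_ ?_ (Set.toFinite _)
    · intro s hs
      exact hs
    · intro s _ s' _ h
      exact Subtype.ext h
  have hsupp := pSupp (orbit N s₀) N ℚ (R.map (bigOut_res s₀ N)) (bigOut_res_stab s₀ N R hR)
    (bigOut_res s₀ N w) ⟨w, hwR, rfl⟩ hw0
  have hRle : R.map (bigOut_res s₀ N) ≤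
      R₁.map (bigOut_res s₀ N) ⊔ R₂.map (bigOut_res s₀ N) := by
    rw [← Submodule.map_sup]
    apply Submodule.map_mono
    intro f hf
    obtain ⟨r, hr, d, hd, hrd⟩ := hdec f hf
    rw [← hrd]
    exact Submodule.add_mem_sup hr hd
  have h1 : finrank ℚ (R₁.map (bigOut_res s₀ N)) ≤ 1 :=
    bigOut_line s₀ N R₁ (by rw [hR₁]; exact inf_le_right)
  have h2 : finrank ℚ (R₂.map (bigOut_res s₀ N)) ≤ finrank ℚ R₂ := Submodule.finrank_map_le _ _
  have h3 := Submodule.finrank_mono hRle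
  have h4 := Submodule.finrank_add_le_finrank_add_finrank
    (R₁.map (bigOut_res s₀ N)) (R₂.map (bigOut_res s₀ N))
  have h5 : 1 ≤ finrank ℚ R₂ := by
    rw [Nat.one_le_iff_ne_zero]
    intro h
    exact hne (Submodule.finrank_eq_zero.1 h)
  have h6 : finrank ℚ (R.map (bigOut_res s₀ N)) ≤ 2 * finrank ℚ R₂ := by omega
  rw [bigOut_card s₀ N hstab]
  apply Nat.mul_le_mul_left
  rw [Nat.card_eq_fintype_card]
  refine hsupp.trans ((Nat.mul_le_mul h6 hwk').trans (le_of_eq ?_))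
  ring

end Pool.Agent.Lib.MP_640417_ag.Sm
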