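import Pool.Agent.Lib.MP_640417_ag.Sm.Spec
import Pool.Agent.Lib.MP_640417_ag.Peel
import Pool.Agent.Lib.MP_640417_ag.RelExotic

/-!
# Classes fixed by the full norm one torus are generated by divisor classes (`StBot`)
-/

namespace Pool.Agent.Lib.MP_640417_ag.Sm

open Module Finset MulAction NumberField Pool.Agent.Lib.MP_640417_ag
  Pool.Agent.Lib.MP_640417_ag.Far Pool.Agent.Lib.MP_640417_ag.Full
  Pool.Agent.Lib.MP_640417_ag.Sharp Pool.Agent.Lib.MP_640417_ag.Wc

section aux

variable {E : Type} [Field E] [NumberField E] {F : Type} [Field F]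

/-- An element of an exterior power fixed by diagonal maps is a combination of monomials fixed by
these maps. -/
private lemma bot_coe {n k : ℕ} [DecidableEq (Emb E × Fin n)]
    (x : ⋀[F]^k (H1 E n F)) (T : Set (Emb E × Fin n → F))
    (hx : ∀ c ∈ T, ExteriorAlgebra.map (LinearMap.pi fun p => c p • LinearMap.proj p :
      H1 E n F →ₗ[F] H1 E n F) (x : ExteriorAlgebra F (H1 E n F)) = x)
    (A : Subalgebra F (ExteriorAlgebra F (H1 E n F)))
    (hA : ∀ l : List (Emb E × Fin n), (∀ c ∈ T, (l.map c).prod = 1) → mono F l ∈ A) :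
    (x : ExteriorAlgebra F (H1 E n F)) ∈ A := by
  classical
  let lo : LinearOrder (Emb E × Fin n) := linearOrderOfSTO WellOrderingRel
  let b : Basis (Emb E × Fin n) F (H1 E n F) := Pi.basisFun F (Emb E × Fin n)
  let B := b.exteriorPower k
  let L : Set.powersetCard (Emb E × Fin n) k → List (Emb E × Fin n) := fun s =>
    List.ofFn (fun j : Fin k => Set.powersetCard.ofFinEmbEquiv.symm s j)
  have hBs : ∀ s, ((B s : ⋀[F]^k (H1 E n F)) : ExteriorAlgebra F (H1 E n F)) = mono F (L s) := by
    intro s
    simp only [B, exteriorPower.basis_apply]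
    rw [exteriorPower.ιMulti_family_apply_coe]
    simp only [ExteriorAlgebra.ιMulti_family, ExteriorAlgebra.ιMulti_apply, mono, L,
      List.map_ofFn]
    congr 2
    funext k
    simp only [Function.comp_apply, ev, b, Pi.basisFun_apply]
  have hmap : ∀ (c : Emb E × Fin n → F) (s : Set.powersetCard (Emb E × Fin n) k),
      exteriorPower.map k (LinearMap.pi fun p => c p • LinearMap.proj p :
        H1 E n F →ₗ[F] H1 E n F) (B s) = ((L s).map c).prod • B s := by
    intro c s
    apply Subtype.ext
    rw [coe_exteriorPower_map, Submodule.coe_smul, hBs, map_scale_mono c (L s)]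
  have hcoef : ∀ s, B.repr x s ≠ 0 → ∀ c ∈ T, ((L s).map c).prod = 1 := by
    intro s hs c hc
    have h1 : exteriorPower.map k (LinearMap.pi fun p => c p • LinearMap.proj p :
        H1 E n F →ₗ[F] H1 E n F) x = x := by
      apply Subtype.ext
      rw [coe_exteriorPower_map]
      exact hx c hc
    have h3 : exteriorPower.map k (LinearMap.pi fun p => c p • LinearMap.proj p :
        H1 E n F →ₗ[F] H1 E n F) x = ∑ t, B.repr x t • ((L t).map c).prod • B t := by
      conv_lhs => rw [← B.sum_repr x]
      rw [map_sum]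
      apply Finset.sum_congr rfl
      intro t _
      rw [map_smul, hmap]
    have h4 : B.repr x s = ((L s).map c).prod * B.repr x s := by
      conv_lhs => rw [← h1, h3, map_sum, Finsupp.finsetSum_apply]
      rw [Finset.sum_eq_single s]
      · simp only [map_smul, Basis.repr_self, Finsupp.smul_apply, smul_eq_mul,
          Finsupp.single_eq_same, mul_one]
        ring
      · intro t _ hts
        simp only [map_smul, Basis.repr_self, Finsupp.smul_apply, smul_eq_mul]
        rw [Finsupp.single_eq_of_ne (Ne.symm hts)]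
        simp
      · intro h; exact absurd (Finset.mem_univ s) h
    have h5 : ((L s).map c).prod * B.repr x s = 1 * B.repr x s := by
      rw [← h4, one_mul]
    exact mul_right_cancel₀ hs h5
  have hxsum : (x : ExteriorAlgebra F (H1 E n F))
      = ∑ s, B.repr x s • ((B s : ⋀[F]^k (H1 E n F)) : ExteriorAlgebra F (H1 E n F)) := by
    conv_lhs => rw [← B.sum_repr x]
    rw [Submodule.coe_sum]
    rfl
  rw [hxsum]
  apply Subalgebra.sum_mem
  intro s _
  by_cases hs : B.repr x s = 0
  · rw [hs, zero_smul]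
    exact Subalgebra.zero_mem _
  · apply Subalgebra.smul_mem
    rw [hBs]
    exact hA _ (hcoef s hs)

private lemma bot_prod_count [DecidableEq (Emb E)] {n : ℕ}
    (l : List (Emb E × Fin n)) (t : Emb E → F) :
    (l.map (fun p => t p.1)).prod = ∏ φ : Emb E, t φ ^ (l.map Prod.fst).count φ := by
  have h1 : l.map (fun p => t p.1) = (l.map Prod.fst).map t := by
    rw [List.map_map]
    rfl
  rw [h1, Finset.prod_list_map_count]
  apply Finset.prod_subset (Finset.subset_univ _)
  intro φ _ hφ
  rw [List.mem_toFinset] at hφ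
  rw [List.count_eq_zero_of_not_mem hφ, pow_zero]

/-- the test function -/
private noncomputable def tst (F : Type) [Field F] [DecidableEq (Emb E)] (φ ψ : Emb E) (θ : Emb E) : F :=
  if θ = φ then 2 else if θ = ψ then 2⁻¹ else 1

private lemma tst_prod [CharZero F] [DecidableEq (Emb E)] (φ ψ : Emb E) (h : φ ≠ ψ)
    (m : Emb E → ℕ) :
    ∏ θ : Emb E, tst F φ ψ θ ^ m θ = 2 ^ m φ * (2⁻¹) ^ m ψ := by
  rw [← Finset.mul_prod_erase Finset.univ _ (Finset.mem_univ φ),
    ← Finset.mul_prod_erase (Finset.univ.erase φ) _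
      (Finset.mem_erase.2 ⟨h.symm, Finset.mem_univ ψ⟩)]
  have h1 : ∏ θ ∈ (Finset.univ.erase φ).erase ψ, tst F φ ψ θ ^ m θ = 1 := by
    apply Finset.prod_eq_one
    intro θ hθ
    rw [Finset.mem_erase, Finset.mem_erase] at hθ
    simp [tst, hθ.1, hθ.2.1]
  rw [h1, mul_one]
  simp [tst, h.symm]

private lemma two_pow_inj [CharZero F] (a b : ℕ) (h : (2 : F) ^ a * (2⁻¹) ^ b = 1) : a = b := by
  have h2 : (2 : F) ^ b ≠ 0 := pow_ne_zero _ two_ne_zero
  have h1 : (2 : F) ^ a = 2 ^ b := by
    rw [inv_pow] at h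
    field_simp at h
    exact h
  have h3 : ((2 ^ a : ℕ) : F) = ((2 ^ b : ℕ) : F) := by
    push_cast
    exact h1
  exact Nat.pow_right_injective le_rfl (Nat.cast_injective h3)

end aux

theorem pBot : StBot := by
  classical
  intro E _ _ _ Φ hΦ Γ _ _ F _ _ ρ n
  apply le_antisymm
  · unfold normAlg
    apply Algebra.adjoin_le
    rintro y (hy | ⟨⟨i, hi⟩, hN⟩)
    · exact Algebra.subset_adjoin hy
    · obtain ⟨z, rfl, _⟩ := (tateClass_iff ρ n i y).1 hi
      rw [divisorAlg_eq]
      show (z : ExteriorAlgebra F (H1 E n F)) ∈ ρ.divisorAlgebra n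
      have hbot : ∀ φ ψ : Emb E, ∀ y ∈ (⊥ : IntermediateField ℚ E), φ y = ψ y := by
        intro φ ψ y hy
        obtain ⟨q, rfl⟩ := IntermediateField.mem_bot.1 hy
        simp
      refine bot_coe z {c | ∃ φ ψ : Emb E, φ ≠ ψ ∧ c = fun p => tst F φ ψ p.1} ?_ _ ?_
      · rintro c ⟨φ, ψ, hφψ, rfl⟩
        apply hN (tst F φ ψ)
        intro θ
        have h1 : ∏ x : Emb E, (if ∀ y ∈ (⊥ : IntermediateField ℚ E), x y = θ y then
            tst F φ ψ x else 1) = ∏ x : Emb E, tst F φ ψ x ^ ((fun _ => 1 : Emb E → ℕ) x) := by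
          apply Finset.prod_congr rfl
          intro x _
          rw [if_pos (hbot x θ), pow_one]
        rw [h1, tst_prod φ ψ hφψ]
        simp
      · intro l hl
        have hcount : ∀ φ ψ : Emb E, (l.map Prod.fst).count φ = (l.map Prod.fst).count ψ := by
          intro φ ψ
          by_cases h : φ = ψ
          · rw [h]
          · have h1 := hl _ ⟨φ, ψ, h, rfl⟩
            rw [bot_prod_count l (tst F φ ψ), tst_prod φ ψ h] at h1
            exact two_pow_inj _ _ h1
        refine mono_mem (conjEmb (E := E)) conjEmb_conjEmb conjEmb_ne Prod.fst _ ?_ l.length l rfl ?_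
        · intro p q hpq
          exact pair_mem_divisorAlgebra ρ hΦ p q hpq
        · intro φ
          exact hcount _ _
  · unfold normAlg divisorAlg
    apply Algebra.adjoin_mono
    intro y hy
    exact Or.inl hy

end Pool.Agent.Lib.MP_640417_ag.Sm
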