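import Pool.Agent.Lib.MP_640417_ag.Sm.Spec
import Pool.Agent.Lib.MP_640417_ag.Sharp.SpecF
import Pool.Agent.Lib.MP_640417_ag.Full.Corr

/-!
# The criterion relative to a subfield: subfields and subgroups
-/

set_option autoImplicit false

namespace Pool.Agent.Lib.MP_640417_ag.Sm

open Module Finset MulAction NumberField Pool.Agent.Lib.MP_640417_ag
  Pool.Agent.Lib.MP_640417_ag.Far Pool.Agent.Lib.MP_640417_ag.Full
  Pool.Agent.Lib.MP_640417_ag.Sharp Pool.Agent.Lib.MP_640417_ag.Wc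

section

variable {E : Type} [Field E] [NumberField E]

private lemma fieldN_exists_mem (φ₀ : Emb E) (H : Subgroup (galGroup E))
    (hH : stabilizer (galGroup E) φ₀ ≤ H) (w : AlgebraicClosure ℚ)
    (hw : ∀ τ : AbsGal, galOf E τ ∈ H → τ w = w) : ∃ x ∈ fixAt φ₀ H, φ₀ x = w := by
  obtain ⟨y, hy⟩ := exists_preimage_of_fixed_emb φ₀ w (by
    intro τ hτ
    apply hw
    apply hH
    exact hτ)
  refine ⟨y, ?_, hy⟩
  intro ν hν
  obtain ⟨n, hn⟩ := exists_galOf ν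
  rw [← hn, galOf_smul, galEmb_apply, hy]
  apply hw
  rw [hn]
  exact hν

private lemma fieldN_mem_of_agree (φ₀ : Emb E) (H : Subgroup (galGroup E))
    (hH : stabilizer (galGroup E) φ₀ ≤ H) (γ : galGroup E)
    (h : ∀ x ∈ fixAt φ₀ H, (γ • φ₀ : Emb E) x = φ₀ x) : γ ∈ H := by
  classical
  obtain ⟨τ₁, hτ₁⟩ := exists_galOf γ
  let I : Emb E → AlgebraicClosure ℚ := fun χ => if χ ∈ orbit H φ₀ then 1 else 0
  have hbij : ∀ τ : AbsGal, Function.Bijective (fun φ : Emb E => galEmb τ φ) := by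
    intro τ
    let _ := galAction E
    exact MulAction.bijective τ
  have hInv : ∀ τ : AbsGal, galOf E τ ∈ H → ∀ χ, I (galEmb τ χ) = I χ := by
    intro τ hτ χ
    have : galEmb τ χ ∈ orbit H φ₀ ↔ χ ∈ orbit H φ₀ := by
      have h1 : galEmb τ χ = (⟨galOf E τ, hτ⟩ : H) • χ := rfl
      rw [h1, ← orbit_eq_iff, ← orbit_eq_iff, orbit_smul]
    simp only [I, this]
  have hfix : ∀ y : E, ∀ τ : AbsGal, galOf E τ ∈ H →
      τ (∑ χ : Emb E, I χ * χ y) = ∑ χ : Emb E, I χ * χ y := by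
    intro y τ hτ
    rw [map_sum]
    apply Fintype.sum_bijective (fun χ => galEmb τ χ) (hbij τ)
    intro χ
    rw [map_mul, hInv τ hτ]
    congr 1
    simp only [I]
    split_ifs <;> simp
  have hval : ∀ y : E, ∀ τ : AbsGal,
      τ (∑ χ : Emb E, I χ * χ y) = ∑ χ : Emb E, I (galEmb τ⁻¹ χ) * χ y := by
    intro y τ
    rw [map_sum]
    apply Fintype.sum_bijective (fun χ => galEmb τ χ) (hbij τ)
    intro χ
    have h1 : galEmb τ⁻¹ (galEmb τ χ) = χ := by
      let _ := galAction E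
      exact inv_smul_smul τ χ
    rw [map_mul, h1]
    congr 1
    simp only [I]
    split_ifs <;> simp
  have hkey : ∀ y : E, ∑ χ : Emb E, I (galEmb τ₁⁻¹ χ) * χ y = ∑ χ : Emb E, I χ * χ y := by
    intro y
    obtain ⟨x, hx, hxw⟩ := fieldN_exists_mem φ₀ H hH _ (hfix y)
    rw [← hval, ← hxw, ← galEmb_apply, ← galOf_smul, hτ₁]
    exact h x hx
  have h1 := coeff_eq _ _ hkey (γ • φ₀)
  have h2 : galEmb τ₁⁻¹ (γ • φ₀ : Emb E) = φ₀ := by
    rw [← hτ₁, galOf_smul]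
    let _ := galAction E
    exact inv_smul_smul τ₁ φ₀
  rw [h2] at h1
  have h3 : (γ • φ₀ : Emb E) ∈ orbit H φ₀ := by
    by_contra h4
    simp only [I, if_neg h4, if_pos (mem_orbit_self φ₀)] at h1
    exact one_ne_zero h1
  obtain ⟨ν, hν⟩ := h3
  have hν' : ν.1 • φ₀ = γ • φ₀ := hν
  have h5 : (ν.1)⁻¹ * γ ∈ stabilizer (galGroup E) φ₀ := by
    rw [mem_stabilizer_iff, mul_smul, ← hν', inv_smul_smul]
  have h6 : γ = ν.1 * ((ν.1)⁻¹ * γ) := by group
  rw [h6]
  exact H.mul_mem ν.2 (hH h5)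

private lemma fieldN_smul_congr (φ ψ : Emb E) (x : E) (h : φ x = ψ x) (γ : galGroup E) :
    (γ • φ : Emb E) x = (γ • ψ : Emb E) x := by
  obtain ⟨τ, hτ⟩ := exists_of_galGroup γ
  rw [hτ, hτ, galEmb_apply, galEmb_apply, h]

end

private lemma fieldN_count {E : Type} [Field E] [NumberField E] (φ₀ : Emb E)
    (N : Subgroup (galGroup E)) (hN : stabilizer (galGroup E) φ₀ ≤ N)
    (hsurj : ∀ K : IntermediateField ℚ E, ∃ H : Subgroup (galGroup E),
      stabilizer (galGroup E) φ₀ ≤ H ∧ fixAt φ₀ H = K)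
    (hord : ∀ H H' : Subgroup (galGroup E), stabilizer (galGroup E) φ₀ ≤ H →
      stabilizer (galGroup E) φ₀ ≤ H' → (fixAt φ₀ H ≤ fixAt φ₀ H' ↔ H' ≤ H))
    (P : Subgroup (galGroup E) → Prop) (Q : IntermediateField ℚ E → Prop)
    (hPQ : ∀ H : Subgroup (galGroup E), stabilizer (galGroup E) φ₀ ≤ H →
      (Q (fixAt φ₀ H) ↔ P H)) :
    {K : IntermediateField ℚ E | Q K ∧ ¬ K ≤ fixAt φ₀ N}.ncard =
      (out N {H : Subgroup (galGroup E) | stabilizer (galGroup E) φ₀ ≤ H ∧ P H}).ncard := by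
  have himg : {K : IntermediateField ℚ E | Q K ∧ ¬ K ≤ fixAt φ₀ N} =
      fixAt φ₀ '' (out N {H : Subgroup (galGroup E) |
        stabilizer (galGroup E) φ₀ ≤ H ∧ P H}) := by
    ext K
    simp only [out, Set.mem_setOf_eq, Set.mem_image]
    constructor
    · rintro ⟨hK, hKN⟩
      obtain ⟨H, hH, rfl⟩ := hsurj K
      exact ⟨H, ⟨⟨hH, (hPQ H hH).mp hK⟩, fun hle => hKN ((hord H N hH hN).mpr hle)⟩, rfl⟩
    · rintro ⟨H, ⟨⟨hH, hP⟩, hNH⟩, rfl⟩
      exact ⟨(hPQ H hH).mpr hP, fun hle => hNH ((hord H N hH hN).mp hle)⟩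
  rw [himg]
  apply Set.ncard_image_of_injOn
  rintro H ⟨⟨hH, -⟩, -⟩ H' ⟨⟨hH', -⟩, -⟩ heq
  apply le_antisymm
  · exact (hord H' H hH' hH).mp (le_of_eq heq.symm)
  · exact (hord H H' hH hH').mp (le_of_eq heq)

theorem pFieldN (hCorrA : StCorrA) (hCorrG : StCorrG) : StFieldN := by
  intro E _ _ _ φ₀ z hz N hN
  obtain ⟨hsurj, hord, hfix⟩ := hCorrA E φ₀ z hz
  have hG := hCorrG E φ₀ z hz
  refine ⟨⟨?_, ?_, ?_, ?_⟩, ?_⟩
  · have h := fieldN_count φ₀ N hN hsurj hord (fun H => z ∉ H ∧ H.index = 2)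
      (fun K => finrank ℚ K = 2 ∧ ∃ x ∈ K, IsCMField.complexConj E x ≠ x) (by
        intro H hH
        obtain ⟨h1, h2⟩ := hfix H hH
        rw [h1, ← h2]
        exact and_comm)
    exact h
  · have h := fieldN_count φ₀ N hN hsurj hord
      (fun H => z ∉ H ∧ H.index = 4 ∧
        ∀ H' : Subgroup (galGroup E), H ≤ H' → H'.index = 2 → z ∈ H')
      (fun K => finrank ℚ K = 4 ∧ (∃ x ∈ K, IsCMField.complexConj E x ≠ x) ∧
        ∀ K' : IntermediateField ℚ E, K' ≤ K → finrank ℚ K' = 2 →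
          ∀ x ∈ K', IsCMField.complexConj E x = x) (by
        intro H hH
        obtain ⟨h1, h2⟩ := hfix H hH
        rw [h1, ← h2]
        constructor
        · rintro ⟨ha, hb, hc⟩
          refine ⟨hb, ha, ?_⟩
          intro H' hHH' hi
          by_contra hzH'
          obtain ⟨h3, h4⟩ := hfix H' (hH.trans hHH')
          obtain ⟨x, hx, hx'⟩ := h4.mp hzH'
          exact hx' (hc (fixAt φ₀ H') ((hord H' H (hH.trans hHH') hH).mpr hHH')
            (by rw [h3, hi]) x hx)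
        · rintro ⟨hb, ha, hc⟩
          refine ⟨ha, hb, ?_⟩
          intro K' hK' hd x hx
          obtain ⟨H', hH', rfl⟩ := hsurj K'
          obtain ⟨h3, h4⟩ := hfix H' hH'
          by_contra hcon
          exact (h4.mpr ⟨x, hx, hcon⟩) (hc H' ((hord H' H hH' hH).mp hK') (by rw [← h3, hd])))
    exact h
  · have h := fieldN_count φ₀ N hN hsurj hord
      (fun H => z ∉ H ∧ H.index = 6 ∧
        ∃ H' : Subgroup (galGroup E), H ≤ H' ∧ H'.index = 2 ∧ z ∉ H')
      (fun K => finrank ℚ K = 6 ∧ (∃ x ∈ K, IsCMField.complexConj E x ≠ x) ∧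
        ∃ K' : IntermediateField ℚ E, K' ≤ K ∧ finrank ℚ K' = 2 ∧
          ∃ x ∈ K', IsCMField.complexConj E x ≠ x) (by
        intro H hH
        obtain ⟨h1, h2⟩ := hfix H hH
        rw [h1, ← h2]
        constructor
        · rintro ⟨ha, hb, K', hK', hd, hx⟩
          refine ⟨hb, ha, ?_⟩
          obtain ⟨H', hH', rfl⟩ := hsurj K'
          obtain ⟨h3, h4⟩ := hfix H' hH'
          exact ⟨H', (hord H' H hH' hH).mp hK', by rw [← h3, hd], h4.mpr hx⟩
        · rintro ⟨hb, ha, H', hHH', hi, hzH'⟩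
          refine ⟨ha, hb, ?_⟩
          obtain ⟨h3, h4⟩ := hfix H' (hH.trans hHH')
          exact ⟨fixAt φ₀ H', (hord H' H (hH.trans hHH') hH).mpr hHH', by rw [h3, hi],
            h4.mp hzH'⟩)
    exact h
  · intro n
    have h := fieldN_count φ₀ N hN hsurj hord (fun H => z ∉ H ∧ IsDih n H)
      (fun K => (∃ x ∈ K, IsCMField.complexConj E x ≠ x) ∧ IsGalois ℚ K ∧
        Nonempty ((K ≃ₐ[ℚ] K) ≃* DihedralGroup n)) (by
        intro H hH
        obtain ⟨h1, h2⟩ := hfix H hH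
        exact and_congr h2.symm (hG H hH n).symm)
    exact h
  · intro γ γ'
    constructor
    · intro hmem x hx
      have h1 : ((γ⁻¹ * γ') • φ₀ : Emb E) x = φ₀ x := hx _ hmem
      have h2 := fieldN_smul_congr _ _ _ h1 γ
      rw [← mul_smul, mul_inv_cancel_left] at h2
      exact h2.symm
    · intro h
      apply fieldN_mem_of_agree φ₀ N hN
      intro x hx
      have h2 := fieldN_smul_congr _ _ _ (h x hx) γ⁻¹
      rw [← mul_smul, ← mul_smul, inv_mul_cancel, one_smul] at h2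
      exact h2.symm

end Pool.Agent.Lib.MP_640417_ag.Sm
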