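import Pool.Agent.Lib.MP_640417_ag.Sm.Spec
import Pool.Agent.Lib.MP_640417_ag.All.LowerCM

/-!
# The lower bound from the quadratic subfields not contained in a subfield `M`

The proof is the one of `lowerMain` (`All/LowerMain.lean`), for the nonreal quadratic subfields `K`
with `¬ K ≤ M`. The relation `chiK φ₀ K` is not constant on the fibres of `Emb E → Emb M`.
-/

set_option autoImplicit false
set_option linter.unusedSectionVars false

namespace Pool.Agent.Lib.MP_640417_ag.Sm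

open Module Finset NumberField MulAction Pool.Agent.Lib.MP_640417_ag
  Pool.Agent.Lib.MP_640417_ag.Far Pool.Agent.Lib.MP_640417_ag.OddGal
  Pool.Agent.Lib.MP_640417_ag.All Pool.Agent.Lib.MP_640417_ag.Sharp

section LowQuadNAux

variable {E : Type} [Field E] [NumberField E] [IsCMField E]

/-- The set of embeddings attached to a sign vector on a transversal. -/
private def tOf (X : Finset (Emb E)) (ε : X → ℤ) : Set (Emb E) :=
  {φ | (∃ h : φ ∈ X, ε ⟨φ, h⟩ = 1) ∨ (∃ h : conjEmb φ ∈ X, ε ⟨conjEmb φ, h⟩ = -1)}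

private lemma mem_tOf {X : Finset (Emb E)} (hX : ∀ φ, φ ∈ X ↔ conjEmb φ ∉ X) (ε : X → ℤ)
    (x : X) : (x : Emb E) ∈ tOf X ε ↔ ε x = 1 := by
  constructor
  · rintro (⟨h, h1⟩ | ⟨h, h1⟩)
    · exact h1
    · exact absurd h ((hX x).mp x.2)
  · intro h
    exact Or.inl ⟨x.2, h⟩

private lemma mem_tOf' {X : Finset (Emb E)} (hX : ∀ φ, φ ∈ X ↔ conjEmb φ ∉ X) (ε : X → ℤ)
    (x : X) : conjEmb (x : Emb E) ∈ tOf X ε ↔ ε x = -1 := by
  have e : ∀ h : conjEmb (conjEmb (x : Emb E)) ∈ X,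
      (⟨conjEmb (conjEmb (x : Emb E)), h⟩ : X) = x := fun h =>
    Subtype.ext (conjEmb_conjEmb _)
  constructor
  · rintro (⟨h, h1⟩ | ⟨h, h1⟩)
    · exact absurd h ((hX x).mp x.2)
    · rwa [e h] at h1
  · intro h
    have h2 : conjEmb (conjEmb (x : Emb E)) ∈ X := by rw [conjEmb_conjEmb]; exact x.2
    exact Or.inr ⟨h2, by rw [e h2]; exact h⟩

private lemma cases_X {X : Finset (Emb E)} (hX : ∀ φ, φ ∈ X ↔ conjEmb φ ∉ X) (φ : Emb E) :
    (∃ x : X, φ = x) ∨ (∃ x : X, φ = conjEmb (x : Emb E)) := by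
  by_cases h : φ ∈ X
  · exact Or.inl ⟨⟨φ, h⟩, rfl⟩
  · have h1 : conjEmb φ ∈ X := by
      by_contra h2
      exact h ((hX φ).mpr h2)
    exact Or.inr ⟨⟨conjEmb φ, h1⟩, (conjEmb_conjEmb φ).symm⟩

private lemma isCMType_tOf {X : Finset (Emb E)} (hX : ∀ φ, φ ∈ X ↔ conjEmb φ ∉ X) (ε : X → ℤ)
    (hε : ε ∈ signs X) : IsCMType (tOf X ε) := by
  intro φ
  rcases cases_X hX φ with ⟨x, rfl⟩ | ⟨x, rfl⟩
  · rw [mem_tOf hX, mem_tOf' hX]
    rcases mem_signs.1 hε x with h | h <;> simp [h]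
  · rw [mem_tOf' hX, conjEmb_conjEmb, mem_tOf hX]
    rcases mem_signs.1 hε x with h | h <;> simp [h]

private lemma sgnZ_tOf {X : Finset (Emb E)} (hX : ∀ φ, φ ∈ X ↔ conjEmb φ ∉ X) (ε : X → ℤ)
    (hε : ε ∈ signs X) (x : X) : sgnZ (tOf X ε) x = ε x := by
  classical
  have h1 := mem_tOf hX ε x
  rcases mem_signs.1 hε x with h | h
  · have h2 := h1.mpr h
    simp [sgnZ, h2, h]
  · have h2 : (x : Emb E) ∉ tOf X ε := fun h3 => by
      have := h1.mp h3
      rw [h] at this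
      norm_num at this
    simp [sgnZ, h2, h]

private lemma sum_X {M : Type} [AddCommMonoid M] {X : Finset (Emb E)}
    (hX : ∀ φ, φ ∈ X ↔ conjEmb φ ∉ X) (f : Emb E → M) :
    ∑ φ, f φ = ∑ x : X, f x + ∑ x : X, f (conjEmb (x : Emb E)) := by
  classical
  rw [← Finset.sum_add_sum_compl X f]
  congr 1
  · exact (Finset.sum_coe_sort X f).symm
  · rw [Finset.sum_coe_sort X (fun φ => f (conjEmb φ))]
    symm
    apply Finset.sum_bij (fun φ _ => conjEmb φ)
    · intro φ hφ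
      rw [Finset.mem_compl]
      exact (hX φ).mp hφ
    · intro φ _ ψ _ h
      rw [← conjEmb_conjEmb φ, h, conjEmb_conjEmb]
    · intro φ hφ
      rw [Finset.mem_compl] at hφ
      refine ⟨conjEmb φ, ?_, conjEmb_conjEmb φ⟩
      by_contra h2
      exact hφ ((hX φ).mpr h2)
    · intro φ _
      rfl

private lemma ncard_X {X : Finset (Emb E)} (hX : ∀ φ, φ ∈ X ↔ conjEmb φ ∉ X)
    (P : Emb E → Prop) (hP : ∀ φ, P (conjEmb φ) ↔ P φ) :
    {φ | P φ}.ncard = 2 * {x : X | P x}.ncard := by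
  classical
  have h1 : ∀ (Y : Type) [Fintype Y] (Q : Y → Prop),
      {y | Q y}.ncard = ∑ y : Y, if Q y then 1 else 0 := by
    intro Y _ Q
    rw [Set.ncard_eq_toFinset_card', Finset.card_eq_sum_ones, Finset.sum_ite]
    simp
  rw [h1, h1, sum_X hX, two_mul]
  congr 1
  exact Finset.sum_congr rfl (fun x _ => by simp only [hP])

private lemma sgnZ_inj (Φ Ψ : Set (Emb E)) (φ : Emb E) (h : sgnZ Φ φ = sgnZ Ψ φ) :
    φ ∈ Φ ↔ φ ∈ Ψ := by
  classical
  simp only [sgnZ] at h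
  by_cases h2 : φ ∈ Φ <;> by_cases h3 : φ ∈ Ψ <;> simp [h2, h3] at h ⊢

private lemma ncard_cm_le {X : Finset (Emb E)} (hX : ∀ φ, φ ∈ X ↔ conjEmb φ ∉ X) :
    {Φ : Set (Emb E) | IsCMType Φ}.ncard ≤ 2 ^ X.card := by
  classical
  have hcs : (signs X : Set (X → ℤ)).ncard = 2 ^ X.card := by
    rw [Set.ncard_coe_finset, card_signs, Fintype.card_coe]
  rw [← hcs]
  refine Set.ncard_le_ncard_of_injOn (fun (Φ : Set (Emb E)) (x : X) => sgnZ Φ x) ?_ ?_
    (Finset.finite_toSet _)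
  · intro Φ _
    rw [Finset.mem_coe, mem_signs]
    intro x
    exact sgnZ_eq_one_or Φ _
  · intro Φ hΦ Ψ hΨ hff
    rw [Set.mem_ofPred_eq] at hΦ hΨ
    ext φ
    rcases cases_X hX φ with ⟨x, rfl⟩ | ⟨x, rfl⟩
    · exact sgnZ_inj Φ Ψ _ (congrFun hff x)
    · rw [hΦ, hΨ, conjEmb_conjEmb, sgnZ_inj Φ Ψ _ (congrFun hff x)]

private lemma ncard_imprim_le (g : ℕ) (hE : finrank ℚ E = 2 * g) :
    {Φ : Set (Emb E) | IsCMType Φ ∧ ¬ Primitive Φ}.ncard ≤ 2 * g * 2 ^ (g / 2) := by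
  classical
  obtain ⟨c, hc⟩ := exists_galEmb_conj E
  let act := galAction E
  let z : galGroup E := ⟨MulAction.toPermHom AbsGal (Emb E) c, ⟨c, rfl⟩⟩
  have hz : ∀ φ : Emb E, z • φ = conjEmb φ := fun φ => hc φ
  have hpre : IsPretransitive (galGroup E) (Emb E) := isPretransitive_galGroup
  have hcomm : ∀ γ : galGroup E, γ * z = z * γ := by
    intro γ
    obtain ⟨τ, hτ⟩ := exists_of_galGroup γ
    apply Subtype.ext
    apply Equiv.ext
    intro φ
    show γ • (z • φ) = z • (γ • φ)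
    rw [hz, hz, hτ, hτ, galEmb_conjEmb]
  have h1 := ncard_imprimitive_le (Emb E) (galGroup E) z hcomm
    (by intro s; rw [hz, hz, conjEmb_conjEmb]) (by intro s; rw [hz]; exact conjEmb_ne s) g
    (by rw [card_emb, hE])
  refine le_trans ?_ h1
  refine Set.ncard_le_ncard_of_injOn (fun (Φ : Set (Emb E)) => sgnZ Φ) ?_ ?_ ?_
  · rintro Φ ⟨hΦ, hP⟩
    refine ⟨⟨fun s => sgnZ_eq_one_or Φ s, fun s => by rw [hz]; exact sgnZ_conj hΦ s⟩, ?_⟩
    unfold Primitive at hP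
    push Not at hP
    obtain ⟨φ, ψ, h2, h3⟩ := hP
    refine ⟨φ, ψ, h3, fun γ => ?_⟩
    obtain ⟨τ, hτ⟩ := exists_of_galGroup γ
    rw [hτ, hτ]
    have h4 := h2 τ
    by_cases h5 : galEmb τ φ ∈ Φ
    · have h6 := h4.mp h5
      simp [sgnZ, h5, h6]
    · have h6 : galEmb τ ψ ∉ Φ := fun h => h5 (h4.mpr h)
      simp [sgnZ, h5, h6]
  · intro Φ _ Ψ _ h
    ext φ
    exact sgnZ_inj Φ Ψ φ (congrFun h φ)
  · refine Set.Finite.subset (Finset.finite_toSet (signs (Emb E))) ?_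
    rintro e ⟨⟨he, -⟩, -⟩
    rw [Finset.mem_coe, mem_signs]
    exact he

private lemma finite_inter : Finite (IntermediateField ℚ E) := by
  obtain ⟨α, hα⟩ := Field.exists_primitive_element ℚ E
  exact Field.finite_intermediateField_of_exists_primitive_element ℚ E ⟨α, hα⟩

private lemma two_pow_ge (h : ℕ) (hh : 20 ≤ h) : 96 * h ^ 2 ≤ 2 ^ h := by
  induction h, hh using Nat.le_induction with
  | base => norm_num
  | succ n hn ih =>
    rw [pow_succ 2 n]
    nlinarith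

/-- there is an embedding which agrees with `φ₀` on `M` but not on `K` -/
private lemma fibre (φ₀ : Emb E) (M K : IntermediateField ℚ E) (h : ¬ K ≤ M) :
    ∃ φ : Emb E, (∀ x ∈ M, φ x = φ₀ x) ∧ ¬ ∀ x ∈ K, φ x = φ₀ x := by
  by_contra hcon
  push Not at hcon
  apply h
  intro x hx
  obtain ⟨y, hy⟩ := exists_preimage_of_fixed (E := M) (L := AlgebraicClosure ℚ)
    (isAlgebraic_rat_of_alg _) (φ₀.comp M.val.toRingHom) (φ₀ x) (by
      intro τ hτ
      have h1 := hcon (galEmb τ φ₀) (fun y hy => by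
        rw [galEmb_apply]
        exact hτ ⟨y, hy⟩) x hx
      rw [galEmb_apply] at h1
      exact h1)
  have h2 : (M.val y : E) = x := φ₀.injective hy
  rw [← h2]
  exact y.2

end LowQuadNAux

theorem pLowQuadN (_hCorrA : StCorrA) : StLowQuadN := by
  classical
  intro E _ _ _ g hE he hg M
  obtain ⟨φ₀⟩ : Nonempty (Emb E) := by
    rw [← Fintype.card_pos_iff, card_emb]
    exact finrank_pos
  obtain ⟨X, hX⟩ := exists_transversal (conjEmb : Emb E → Emb E) conjEmb_conjEmb conjEmb_ne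
  have hXcard : X.card = g := by
    have h1 := two_mul_card_transversal (conjEmb : Emb E → Emb E) conjEmb_conjEmb X hX
    rw [card_emb] at h1
    omega
  have hfin : Finite (IntermediateField ℚ E) := finite_inter
  let ι : Type := {K : IntermediateField ℚ E //
    (finrank ℚ K = 2 ∧ ∃ x ∈ K, IsCMField.complexConj E x ≠ x) ∧ ¬ K ≤ M}
  have hι : Fintype ι := Fintype.ofFinite ι
  have hιc : Fintype.card ι = numQuad E M := by
    rw [← Nat.card_eq_fintype_card]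
    rfl
  have hm := moment X g (by rw [Fintype.card_coe, hXcard]) (by omega) he ι
    (fun i x => chiK φ₀ i.1 (x : Emb E))
    (by
      intro i x
      simp only [chiK]
      split_ifs
      · exact Or.inl rfl
      · exact Or.inr rfl)
    (by
      intro i j hij
      have h1 := chiK_half φ₀ i.1 j.1 i.2.1.1 i.2.1.2 j.2.1.1 j.2.1.2 (fun h => hij (Subtype.ext h))
      have h2 := ncard_X hX (fun φ => chiK φ₀ i.1 φ = chiK φ₀ j.1 φ) (by
        intro φ
        rw [chiK_conj φ₀ i.1 i.2.1.1 i.2.1.2, chiK_conj φ₀ j.1 j.2.1.1 j.2.1.2, neg_inj])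
      rw [h2, hE] at h1
      omega)
  rw [hιc] at hm
  -- the types with a relation
  have hA : {ε : X → ℤ | ε ∈ signs X ∧ ∃ i : ι, ∑ x, ε x * chiK φ₀ i.1 (x : Emb E) = 0}.ncard ≤
      {Φ : Set (Emb E) | IsCMType Φ ∧ HasRel M Φ}.ncard := by
    refine Set.ncard_le_ncard_of_injOn (fun ε => tOf X ε) ?_ ?_ (Set.toFinite _)
    · rintro ε ⟨hε, i, hi⟩
      have hcm := isCMType_tOf hX ε hε
      obtain ⟨φ₁, hφ₁, hφ₁'⟩ := fibre φ₀ M i.1 i.2.2
      refine ⟨hcm, chiK φ₀ i.1, ?_, φ₁, φ₀, hφ₁, ?_⟩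
      · apply chiK_mem_relLattice φ₀ i.1 i.2.1.1 i.2.1.2 _ hcm
        rw [sum_X hX]
        have h1 : ∑ x : X, chiK φ₀ i.1 (x : Emb E) * sgnZ (tOf X ε) x = 0 := by
          rw [← hi]
          exact Finset.sum_congr rfl (fun x _ => by rw [sgnZ_tOf hX ε hε, mul_comm])
        have h2 : ∑ x : X, chiK φ₀ i.1 (conjEmb (x : Emb E)) *
            sgnZ (tOf X ε) (conjEmb (x : Emb E)) = 0 := by
          rw [← h1]
          exact Finset.sum_congr rfl (fun x _ => by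
            rw [chiK_conj φ₀ i.1 i.2.1.1 i.2.1.2, sgnZ_conj hcm, neg_mul_neg])
        rw [h1, h2, add_zero]
      · have h1 : chiK φ₀ i.1 φ₀ = 1 := by simp [chiK]
        have h2 : chiK φ₀ i.1 φ₁ = -1 := by
          unfold chiK
          rw [if_neg hφ₁']
        rw [h1, h2]
        norm_num
    · rintro ε ⟨hε, -⟩ ε' ⟨hε', -⟩ h
      funext x
      rw [← sgnZ_tOf hX ε hε x, ← sgnZ_tOf hX ε' hε' x]
      exact congrArg (fun Φ => sgnZ Φ (x : Emb E)) h
  have hB := ncard_imprim_le g hE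
  have hC : {Φ : Set (Emb E) | IsCMType Φ ∧ HasRel M Φ}.ncard ≤
      {Φ : Set (Emb E) | IsCMType Φ ∧ Primitive Φ ∧ HasRel M Φ}.ncard +
      {Φ : Set (Emb E) | IsCMType Φ ∧ ¬ Primitive Φ}.ncard := by
    refine le_trans (Set.ncard_le_ncard ?_ (Set.toFinite _)) (Set.ncard_union_le _ _)
    rintro Φ ⟨h1, h2⟩
    by_cases h3 : Primitive Φ
    · exact Or.inl ⟨h1, h3, h2⟩
    · exact Or.inr ⟨h1, h3⟩
  have hcm := ncard_cm_le hX
  rw [hXcard] at hcm
  have hcm' : ({Φ : Set (Emb E) | IsCMType Φ}.ncard : ℝ) ≤ 2 ^ g := by exact_mod_cast hcm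
  by_cases ha : numQuad E M = 0
  · rw [ha]
    simp
  have ha' : (1 : ℝ) ≤ numQuad E M := by exact_mod_cast Nat.one_le_iff_ne_zero.mpr ha
  have hg0 : (0 : ℝ) < g := by
    have : 0 < g := by omega
    exact_mod_cast this
  have hg1 : (1 : ℝ) ≤ g := by
    have : 1 ≤ g := by omega
    exact_mod_cast this
  set s := Real.sqrt g with hs
  have hs0 : 0 < s := Real.sqrt_pos.mpr hg0
  have hs1 : 1 ≤ s := by rw [hs]; exact Real.one_le_sqrt.mpr hg1
  have hss : s * s = g := Real.mul_self_sqrt hg0.le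
  set m : ℝ := min 1 (numQuad E M / s) with hmdef
  have hm1 : 1 / s ≤ m := by
    rw [hmdef]
    refine le_min ?_ ?_
    · rw [div_le_one hs0]; exact hs1
    · gcongr
  have hm0 : 0 ≤ m := le_trans (by positivity) hm1
  -- the numerical inequality
  have hnum : (2 * g * 2 ^ (g / 2) : ℝ) ≤ (1 / 12) * m * 2 ^ g := by
    obtain ⟨h, hh⟩ := he
    have hg2 : g / 2 = h := by omega
    have h1 := two_pow_ge h (by omega)
    have h1' : (96 * (h : ℝ) ^ 2) ≤ 2 ^ h := by exact_mod_cast h1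
    have hgh : (g : ℝ) = 2 * h := by rw [hh]; push_cast; ring
    have hpow : (2 : ℝ) ^ g = 2 ^ h * 2 ^ h := by rw [hh, pow_add]
    have hsg : s ≤ g := by nlinarith
    have h2 : (24 : ℝ) * g * s ≤ 2 ^ h := by
      calc (24 : ℝ) * g * s ≤ 24 * g * g := by gcongr
        _ = 96 * (h : ℝ) ^ 2 := by rw [hgh]; ring
        _ ≤ 2 ^ h := h1'
    have h3 : (24 : ℝ) * g ≤ m * 2 ^ h := by
      calc (24 : ℝ) * g = (1 / s) * (24 * g * s) := by field_simp
        _ ≤ m * 2 ^ h := by gcongr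
    rw [hg2, hpow]
    have h4 : (0 : ℝ) < 2 ^ h := by positivity
    nlinarith
  have hA' : ((({ε : X → ℤ | ε ∈ signs X ∧ ∃ i : ι,
      ∑ x, ε x * chiK φ₀ i.1 (x : Emb E) = 0}).ncard : ℕ) : ℝ) ≤
      {Φ : Set (Emb E) | IsCMType Φ ∧ HasRel M Φ}.ncard := by exact_mod_cast hA
  have hB' : ({Φ : Set (Emb E) | IsCMType Φ ∧ ¬ Primitive Φ}.ncard : ℝ) ≤
      2 * g * 2 ^ (g / 2) := by exact_mod_cast hB
  have hC' : ({Φ : Set (Emb E) | IsCMType Φ ∧ HasRel M Φ}.ncard : ℝ) ≤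
      {Φ : Set (Emb E) | IsCMType Φ ∧ Primitive Φ ∧ HasRel M Φ}.ncard +
      {Φ : Set (Emb E) | IsCMType Φ ∧ ¬ Primitive Φ}.ncard := by exact_mod_cast hC
  have h5 : (1 / 12 : ℝ) * m * {Φ : Set (Emb E) | IsCMType Φ}.ncard ≤ (1 / 12) * m * 2 ^ g := by
    gcongr
  have h6 : (1 / 6 : ℝ) * m * 2 ^ g = (1 / 12) * m * 2 ^ g + (1 / 12) * m * 2 ^ g := by ring
  linarith

end Pool.Agent.Lib.MP_640417_ag.Sm
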