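import Pool.Agent.Lib.MP_640417_ag.Sm.Spec

/-!
# The lower bound from quartic and sextic subfields not contained in `M`
-/

namespace Pool.Agent.Lib.MP_640417_ag.Sm

open Module Finset MulAction NumberField Pool.Agent.Lib.MP_640417_ag
  Pool.Agent.Lib.MP_640417_ag.Far Pool.Agent.Lib.MP_640417_ag.Full
  Pool.Agent.Lib.MP_640417_ag.Sharp Pool.Agent.Lib.MP_640417_ag.Wc

/-- Sets of sign functions are finite. -/
private lemma lowSpN_finite {S G : Type} [Fintype S] [Group G] [MulAction G S] (z : G)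
    (A : Set (S → ℤ)) (hA : ∀ e ∈ A, IsSgn z e) : A.Finite := by
  apply Set.Finite.subset (Set.Finite.pi' (fun _ : S => Set.toFinite ({1, -1} : Set ℤ)))
  intro e he s
  rcases (hA e he).1 s with h | h <;> simp [h]

/-- The sum of two stable spaces is stable. -/
private lemma lowSpN_stab {S G : Type} [Fintype S] [Group G] [MulAction G S]
    {U U' : Submodule ℚ (S → ℚ)} (h : IsStab G U) (h' : IsStab G U') : IsStab G (U ⊔ U') := by
  intro f hf γ
  obtain ⟨a, ha, b, hb, rfl⟩ := Submodule.mem_sup.mp hf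
  exact Submodule.mem_sup.mpr ⟨_, h a ha γ, _, h' b hb γ, by funext s; simp⟩

/-- The sum of two odd spaces is odd. -/
private lemma lowSpN_odd {S G : Type} [Fintype S] [Group G] [MulAction G S] {z : G}
    {U U' : Submodule ℚ (S → ℚ)} (h : IsOddSp z U) (h' : IsOddSp z U') :
    IsOddSp z (U ⊔ U') := by
  intro f hf s
  obtain ⟨a, ha, b, hb, rfl⟩ := Submodule.mem_sup.mp hf
  simp only [Pi.add_apply, h a ha s, h' b hb s]
  ring

/-- Orthogonality to the sum of two spaces. -/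
private lemma lowSpN_perp {S : Type} [Fintype S] {U U' : Submodule ℚ (S → ℚ)} {e : S → ℤ}
    (h : Perp e U) (h' : Perp e U') : Perp e (U ⊔ U') := by
  intro f hf
  obtain ⟨a, ha, b, hb, rfl⟩ := Submodule.mem_sup.mp hf
  have h1 := h a ha
  have h2 := h' b hb
  simp only [Pi.add_apply, add_mul, Finset.sum_add_distrib]
  rw [h1, h2, add_zero]

/-- **The lower bound from quartic and sextic subfields not contained in `M`.** -/
theorem pLowSpN (hUnion : StUnion) (hSpLow : StSpLow) (hSpDim : StSpDim) (hSpSep : StSpSep)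
    (hLocal : StLocal) (hSpOut : StSpOut) (hRelN : StRelN) : StLowSpN := by
  classical
  obtain ⟨c₁, hc₁, hlow⟩ := hSpLow
  obtain ⟨C₁, hC₁, hloc⟩ := hLocal 4
  obtain ⟨c, hc, hun⟩ := hUnion c₁ C₁ hc₁ hC₁
  refine ⟨c, hc, ?_⟩
  intro S G _ _ _ _ _ s₀ z hz hzz hzs g hg hg1 N
  obtain ⟨X, hX⟩ := exists_transversal (fun s : S => z • s) hzz hzs
  have hXc : X.card = g := by
    have := two_mul_card_transversal (fun s : S => z • s) hzz X hX
    omega
  have hgr : (1 : ℝ) ≤ g := by exact_mod_cast hg1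
  have key : ∀ 𝓗 : Set (Subgroup G), (∀ H ∈ 𝓗, (H ∈ quart s₀ z ∧ 4 ∣ g) ∨ H ∈ sext s₀ z) →
      (∀ H ∈ 𝓗, ¬ N ≤ H) →
      c * min 1 ((𝓗.ncard : ℝ) / g) * 2 ^ g ≤ ((relN s₀ z N : Set (S → ℤ)).ncard : ℝ) := by
    intro 𝓗 h𝓗 hout
    have hmem : ∀ H : 𝓗, H.1 ∈ quart s₀ z ∪ sext s₀ z := by
      intro H
      rcases h𝓗 H.1 H.2 with h | h
      · exact Or.inl h.1
      · exact Or.inr h
    have hdim := fun H : 𝓗 => hSpDim S G s₀ z hz hzz H.1 (hmem H)
    let A : 𝓗 → Set (S → ℤ) := fun H => {e : S → ℤ | IsSgn z e ∧ Perp e (sp s₀ z H.1)}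
    have hlow' : ∀ H : 𝓗, c₁ * (1 / (g : ℝ)) * 2 ^ g ≤ ((A H).ncard : ℝ) := by
      intro H
      have := hlow S G s₀ z hz hzz g hg H.1 (h𝓗 H.1 H.2)
      calc c₁ * (1 / (g : ℝ)) * 2 ^ g = c₁ / g * 2 ^ g := by ring
        _ ≤ _ := this
    have hpair : ∀ H H' : 𝓗, H ≠ H' →
        (((A H) ∩ (A H')).ncard : ℝ) ≤ C₁ * (1 / (g : ℝ)) ^ 2 * 2 ^ g := by
      intro H H' hne
      rcases Set.eq_empty_or_nonempty ((A H) ∩ (A H')) with h0 | ⟨e₀, he₀, he₀'⟩
      · rw [h0, Set.ncard_empty]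
        push_cast
        positivity
      · have hst := lowSpN_stab (hdim H).1 (hdim H').1
        have hod := lowSpN_odd (hdim H).2.1 (hdim H').2.1
        have hfin : finrank ℚ (sp s₀ z H.1 ⊔ sp s₀ z H'.1 : Submodule ℚ (S → ℚ)) = 4 := by
          have h1 := Submodule.finrank_sup_add_finrank_inf_eq (sp s₀ z H.1) (sp s₀ z H'.1)
          rw [hSpSep S G s₀ z hz hzz H.1 H'.1 (hmem H) (hmem H') (fun h => hne (Subtype.ext h)),
            finrank_bot, (hdim H).2.2.1, (hdim H').2.2.1] at h1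
          omega
        have h1 := hloc S G z hzz X hX (by omega) _ hst hod hfin e₀ he₀.1
        have h2 : (A H) ∩ (A H') ⊆ {e : S → ℤ | IsSgn z e ∧
            ∀ f ∈ (sp s₀ z H.1 ⊔ sp s₀ z H'.1 : Submodule ℚ (S → ℚ)),
              ∑ s, f s * (e s : ℚ) = ∑ s, f s * (e₀ s : ℚ)} := by
          rintro e ⟨he, he'⟩
          refine ⟨he.1, fun f hf => ?_⟩
          rw [lowSpN_perp he.2 he'.2 f hf, lowSpN_perp he₀.2 he₀'.2 f hf]
        have h3 : (((A H) ∩ (A H')).ncard : ℝ) ≤ ({e : S → ℤ | IsSgn z e ∧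
            ∀ f ∈ (sp s₀ z H.1 ⊔ sp s₀ z H'.1 : Submodule ℚ (S → ℚ)),
              ∑ s, f s * (e s : ℚ) = ∑ s, f s * (e₀ s : ℚ)}.ncard : ℝ) := by
          exact_mod_cast Set.ncard_le_ncard h2 (lowSpN_finite z _ (fun e he => he.1))
        refine h3.trans (h1.trans (le_of_eq ?_))
        rw [hXc]
        have h4 : (-(((4 : ℕ) : ℝ) / 2)) = -((2 : ℕ) : ℝ) := by norm_num
        rw [h4, Real.rpow_neg (by positivity), Real.rpow_natCast, one_div, inv_pow]
    have h1 := hun 𝓗 (S → ℤ) A (fun H => lowSpN_finite z _ (fun e he => he.1)) (2 ^ g)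
      (1 / (g : ℝ)) (by positivity) (by positivity) (by rw [div_le_one (by linarith)]; exact hgr)
      hlow' hpair
    have h2 : (⋃ H : 𝓗, A H) ⊆ relN s₀ z N := by
      refine Set.iUnion_subset (fun H => ?_)
      rintro e ⟨he, he'⟩
      exact hRelN S G s₀ z N _ (hSpOut S G s₀ z hz hzz N H.1 (hmem H) (hout H.1 H.2))
        (hdim H).1 (hdim H).2.1 e he he'
    have h3 : ((⋃ H : 𝓗, A H).ncard : ℝ) ≤ ((relN s₀ z N : Set (S → ℤ)).ncard : ℝ) := by
      exact_mod_cast Set.ncard_le_ncard h2 (lowSpN_finite z _ (fun e he => he.1))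
    have h4 : (Nat.card 𝓗 : ℝ) * (1 / (g : ℝ)) = (𝓗.ncard : ℝ) / g := by
      rw [Nat.card_coe_set_eq, mul_one_div]
    rw [h4] at h1
    exact h1.trans h3
  exact ⟨fun h4 => key _ (fun H hH => Or.inl ⟨hH.1, h4⟩) (fun H hH => hH.2),
    key _ (fun H hH => Or.inr hH.1) (fun H hH => hH.2)⟩

end Pool.Agent.Lib.MP_640417_ag.Sm
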