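import Pool.Agent.Lib.MP_640417_ag.Sm.Spec
import Pool.Agent.Lib.MP_640417_ag.Sharp.Lower

/-!
# The lower bound relative to a subfield
-/

namespace Pool.Agent.Lib.MP_640417_ag.Sm

open Module Finset MulAction NumberField Pool.Agent.Lib.MP_640417_ag
  Pool.Agent.Lib.MP_640417_ag.Far Pool.Agent.Lib.MP_640417_ag.Full
  Pool.Agent.Lib.MP_640417_ag.Sharp Pool.Agent.Lib.MP_640417_ag.Wc

/-- **The lower bound.** -/
theorem lower_fieldsN (hQuad : StLowQuadN) (hSp : StLowSpN) (hDih : StLowDihN)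
    (hF : StFieldN) (hTr : StTransN) (hCorrA : StCorrA) :
    ∃ c : ℝ, 0 < c ∧ ∃ g₀ : ℕ, ∀ (E : Type) [Field E] [NumberField E] [IsCMField E] (g : ℕ),
      finrank ℚ E = 2 * g → g₀ ≤ g → 2 ^ g ≤ {Φ : Set (Emb E) | IsCMType Φ}.ncard →
      ∀ M : IntermediateField ℚ E, c * min 1 (rate E M g) * 2 ^ g ≤
        ({Φ : Set (Emb E) | IsCMType Φ ∧ OddGal.Primitive Φ ∧ HasRel M Φ}.ncard : ℝ) := by
  obtain ⟨c₁, hc₁, hSp⟩ := hSp
  obtain ⟨c₂, hc₂, g₂, hDih⟩ := hDih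
  obtain ⟨g₃, hst₁⟩ := lower_step c₁ hc₁
  obtain ⟨g₄, hst₂⟩ := lower_step c₂ hc₂
  set c : ℝ := min (1 / 12) (min (c₁ / 2) (c₂ / 2)) with hc
  have hc0 : 0 < c := by positivity
  have hcQ : c ≤ 1 / 12 := min_le_left _ _
  have hcS : c ≤ c₁ / 2 := (min_le_right _ _).trans (min_le_left _ _)
  have hcD : c ≤ c₂ / 2 := (min_le_right _ _).trans (min_le_right _ _)
  refine ⟨c / 5, by positivity, max (max g₂ g₃) (max g₄ 40), ?_⟩
  intro E _ _ _ g hE hg htyp M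
  have hg2 : g₂ ≤ g := le_trans (le_trans (le_max_left _ _) (le_max_left _ _)) hg
  have hg3 : g₃ ≤ g := le_trans (le_trans (le_max_right _ _) (le_max_left _ _)) hg
  have hg4 : g₄ ≤ g := le_trans (le_trans (le_max_left _ _) (le_max_right _ _)) hg
  have hg40 : 40 ≤ g := le_trans (le_trans (le_max_right _ _) (le_max_right _ _)) hg
  classical
  obtain ⟨φ₀⟩ : Nonempty (Emb E) := by
    rw [← Fintype.card_pos_iff, card_emb]
    exact finrank_pos
  obtain ⟨cc, hcc⟩ := exists_galEmb_conj E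
  let act := galAction E
  let z : galGroup E := ⟨MulAction.toPermHom AbsGal (Emb E) cc, ⟨cc, rfl⟩⟩
  have hzs : ∀ φ : Emb E, z • φ = conjEmb φ := fun φ => hcc φ
  have hpre : IsPretransitive (galGroup E) (Emb E) := isPretransitive_galGroup
  have hfaith : FaithfulSMul (galGroup E) (Emb E) := by
    refine ⟨fun {a b} h => ?_⟩
    apply Subtype.ext
    apply Equiv.ext
    exact h
  have hz : ∀ γ : galGroup E, γ * z = z * γ := by
    intro γ
    obtain ⟨τ, hτ⟩ := exists_of_galGroup γ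
    apply Subtype.ext
    apply Equiv.ext
    intro φ
    show γ • (z • φ) = z • (γ • φ)
    rw [hzs, hzs, hτ, hτ, galEmb_conjEmb]
  have hzz : ∀ φ : Emb E, z • z • φ = φ := fun φ => by rw [hzs, hzs, conjEmb_conjEmb]
  have hzne : ∀ φ : Emb E, z • φ ≠ φ := fun φ => by rw [hzs]; exact conjEmb_ne φ
  have hcard : Fintype.card (Emb E) = 2 * g := by rw [card_emb, hE]
  obtain ⟨N, hN, hNM⟩ := (hCorrA E φ₀ z hzs).1 M
  obtain ⟨⟨e1, e2, e3, e4⟩, -⟩ := hF E φ₀ z hzs N hN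
  rw [hNM] at e1 e2 e3 e4
  set T : ℝ := ({Φ : Set (Emb E) | IsCMType Φ ∧ OddGal.Primitive Φ ∧ HasRel M Φ}.ncard : ℝ)
    with hT
  have hT0 : 0 ≤ T := Nat.cast_nonneg _
  have hRT : ((relN φ₀ z N : Set (Emb E → ℤ)).ncard : ℝ) ≤ T + 2 * g * 2 ^ (g / 2) := by
    have h1 := hTr E g hE φ₀ z hzs N hN
    rw [hNM] at h1
    have h2 : ((relN φ₀ z N : Set (Emb E → ℤ)).ncard : ℝ) ≤
      (({Φ : Set (Emb E) | IsCMType Φ ∧ OddGal.Primitive Φ ∧ HasRel M Φ}.ncard
      + 2 * g * 2 ^ (g / 2) : ℕ) : ℝ) := by exact_mod_cast h1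
    push_cast at h2
    exact h2
  have hg0 : (0 : ℝ) < g := by
    have : 0 < g := by omega
    exact_mod_cast this
  have h2g : (0 : ℝ) < 2 ^ g := by positivity
  have hlog : 1 ≤ Real.log g := by
    rw [Real.le_log_iff_exp_le hg0]
    have h1 := Real.exp_one_lt_d9
    have h2 : (40 : ℝ) ≤ g := by exact_mod_cast hg40
    linarith
  -- the five parts
  have hmono : ∀ (c' r : ℝ), c ≤ c' → 0 ≤ r → c' * min 1 r * 2 ^ g ≤ T → c * min 1 r * 2 ^ g ≤ T := by
    intro c' r hcc' hr h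
    refine le_trans ?_ h
    have : 0 ≤ min 1 r := le_min (by norm_num) hr
    gcongr
  have hint : ∀ (k : ℕ) (x : ℝ), 1 ≤ x → ((k : ℝ) * x / g = 0 ∨ 1 / (g : ℝ) ≤ (k : ℝ) * x / g) := by
    intro k x hx
    rcases Nat.eq_zero_or_pos k with rfl | hk
    · left
      simp
    · right
      have hk1 : (1 : ℝ) ≤ k := by exact_mod_cast hk
      have : (1 : ℝ) ≤ k * x := by nlinarith
      gcongr
  set r1 : ℝ := if 2 ∣ g then (numQuad E M : ℝ) / Real.sqrt g else 0 with hr1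
  set r2 : ℝ := (if 4 ∣ g then (numQuart E M : ℝ) else 0) / g with hr2
  set r3 : ℝ := (numSext E M : ℝ) / g with hr3
  set r4 : ℝ := (numDih E M 4 : ℝ) * Real.log g / g with hr4
  set r5 : ℝ := (numDih E M 6 : ℝ) * Real.log g / g with hr5
  have hr1' : 0 ≤ r1 := by rw [hr1]; split_ifs <;> positivity
  have hr2' : 0 ≤ r2 := by rw [hr2]; split_ifs <;> positivity
  have hr3' : 0 ≤ r3 := by rw [hr3]; positivity
  have hr4' : 0 ≤ r4 := by
    rw [hr4]
    exact div_nonneg (mul_nonneg (Nat.cast_nonneg _) (by linarith)) hg0.le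
  have hr5' : 0 ≤ r5 := by
    rw [hr5]
    exact div_nonneg (mul_nonneg (Nat.cast_nonneg _) (by linarith)) hg0.le
  have hrate : rate E M g = r1 + (r2 + (r3 + (r4 + r5))) := by
    rw [rate, hr1, hr2, hr3, hr4, hr5]
    ring
  have b1 : c * min 1 r1 * 2 ^ g ≤ T := by
    rw [hr1]
    split_ifs with h
    · have h1 := hQuad E g hE ((even_iff_two_dvd).mpr h) hg40 M
      refine hmono (1 / 12) _ hcQ (by positivity) ?_
      refine le_trans ?_ h1
      have h2 : ((2 : ℝ) ^ g) ≤ {Φ : Set (Emb E) | IsCMType Φ}.ncard := by exact_mod_cast htyp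
      gcongr
    · simpa using hT0
  obtain ⟨s1, s2⟩ := hSp (Emb E) (galGroup E) φ₀ z hz hzz hzne g hcard (by omega) N
  have b2 : c * min 1 r2 * 2 ^ g ≤ T := by
    rw [hr2]
    split_ifs with h
    · have h1 := s1 h
      rw [← e2] at h1
      refine hmono (c₁ / 2) _ hcS (by positivity) ?_
      refine hst₁ g _ _ T hg3 ?_ hT0 h1 hRT
      have := hint (numQuart E M) 1 le_rfl
      rwa [mul_one] at this
    · simpa using hT0
  have b3 : c * min 1 r3 * 2 ^ g ≤ T := by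
    rw [← e3] at s2
    refine hmono (c₁ / 2) _ hcS hr3' ?_
    refine hst₁ g _ _ T hg3 ?_ hT0 s2 hRT
    have := hint (numSext E M) 1 le_rfl
    rwa [mul_one] at this
  have b4 : c * min 1 r4 * 2 ^ g ≤ T := by
    have h1 := hDih 4 (Or.inl rfl) (Emb E) (galGroup E) φ₀ z hz hzz hzne g hcard hg2 N
    rw [← e4] at h1
    exact hmono (c₂ / 2) _ hcD hr4' (hst₂ g _ _ T hg4 (hint _ _ hlog) hT0 h1 hRT)
  have b5 : c * min 1 r5 * 2 ^ g ≤ T := by
    have h1 := hDih 6 (Or.inr rfl) (Emb E) (galGroup E) φ₀ z hz hzz hzne g hcard hg2 N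
    rw [← e4] at h1
    exact hmono (c₂ / 2) _ hcD hr5' (hst₂ g _ _ T hg4 (hint _ _ hlog) hT0 h1 hRT)
  rw [hrate]
  have m1 := min_add_le r1 (r2 + (r3 + (r4 + r5))) hr1' (by positivity)
  have m2 := min_add_le r2 (r3 + (r4 + r5)) hr2' (by positivity)
  have m3 := min_add_le r3 (r4 + r5) hr3' (by positivity)
  have m4 := min_add_le r4 r5 hr4' hr5'
  have m5 : min 1 (r1 + (r2 + (r3 + (r4 + r5)))) ≤
      min 1 r1 + min 1 r2 + min 1 r3 + min 1 r4 + min 1 r5 := by linarith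
  calc c / 5 * min 1 (r1 + (r2 + (r3 + (r4 + r5)))) * 2 ^ g
      ≤ c / 5 * (min 1 r1 + min 1 r2 + min 1 r3 + min 1 r4 + min 1 r5) * 2 ^ g := by gcongr
    _ = (c * min 1 r1 * 2 ^ g + c * min 1 r2 * 2 ^ g + c * min 1 r3 * 2 ^ g
        + c * min 1 r4 * 2 ^ g + c * min 1 r5 * 2 ^ g) / 5 := by ring
    _ ≤ T := by linarith

end Pool.Agent.Lib.MP_640417_ag.Sm
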