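import Pool.Agent.Lib.MP_640417_ag.Sm.Spec
import Pool.Agent.Lib.MP_640417_ag.ConjGal
import Pool.Agent.Lib.MP_640417_ag.RelExotic

/-!
# Relations which are not constant on the fibres give Tate classes which are not generated
-/

namespace Pool.Agent.Lib.MP_640417_ag.Sm

open Module Finset MulAction NumberField Pool.Agent.Lib.MP_640417_ag
  Pool.Agent.Lib.MP_640417_ag.Far Pool.Agent.Lib.MP_640417_ag.Full
  Pool.Agent.Lib.MP_640417_ag.Sharp Pool.Agent.Lib.MP_640417_ag.Wc

section weight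

variable {E : Type} [Field E] [NumberField E] [IsCMField E]

open Classical in
/-- the weight `δ_φ - δ_ψ - δ_(conj φ) + δ_(conj ψ)` -/
private noncomputable def wt (φ ψ : Emb E) (θ : Emb E) : ℤ :=
  (if θ = φ then 1 else 0) - (if θ = ψ then 1 else 0) - (if θ = conjEmb φ then 1 else 0)
    + (if θ = conjEmb ψ then 1 else 0)

private lemma wt_conj (φ ψ θ : Emb E) : wt φ ψ (conjEmb θ) = - wt φ ψ θ := by
  classical
  have h1 : ∀ χ : Emb E, conjEmb θ = χ ↔ θ = conjEmb χ := fun χ =>
    ⟨fun h => by rw [← h, conjEmb_conjEmb], fun h => by rw [h, conjEmb_conjEmb]⟩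
  simp only [wt, h1, conjEmb_conjEmb]
  ring

private lemma sum_wt_mul (φ ψ : Emb E) (f : Emb E → ℤ) :
    ∑ θ, wt φ ψ θ * f θ = f φ - f ψ - f (conjEmb φ) + f (conjEmb ψ) := by
  classical
  have h : ∀ θ, wt φ ψ θ * f θ = (if θ = φ then f θ else 0) - (if θ = ψ then f θ else 0)
      - (if θ = conjEmb φ then f θ else 0) + (if θ = conjEmb ψ then f θ else 0) := by
    intro θ
    simp only [wt, add_mul, sub_mul, ite_mul, one_mul, zero_mul]
  rw [Finset.sum_congr rfl fun θ _ => h θ, Finset.sum_add_distrib, Finset.sum_sub_distrib,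
    Finset.sum_sub_distrib]
  simp only [Finset.sum_ite_eq', Finset.mem_univ, if_true]

private lemma conj_agree {M : IntermediateField ℚ E} {φ ψ : Emb E} (h : ∀ y ∈ M, φ y = ψ y) :
    ∀ y ∈ M, conjEmb φ y = conjEmb ψ y := by
  obtain ⟨τ, hτ⟩ := exists_galEmb_conj E
  intro y hy
  rw [← hτ φ, ← hτ ψ]
  show τ (φ y) = τ (ψ y)
  rw [h y hy]

private lemma fibre_prod {F : Type} [Field F] [CharZero F] {M : IntermediateField ℚ E}
    {φ ψ : Emb E} (h : ∀ y ∈ M, φ y = ψ y) (χ : Emb E) [∀ θ : Emb E, Decidable (∀ y ∈ M, θ y = χ y)] :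
    ∏ θ : Emb E, (if ∀ y ∈ M, θ y = χ y then (2 : F) ^ (wt φ ψ θ) else 1) = 1 := by
  classical
  have h2 : (2 : F) ≠ 0 := two_ne_zero
  have e1 : ∀ θ : Emb E, (if ∀ y ∈ M, θ y = χ y then (2 : F) ^ (wt φ ψ θ) else 1) =
      (2 : F) ^ (wt φ ψ θ * (if ∀ y ∈ M, θ y = χ y then (1 : ℤ) else 0)) := by
    intro θ
    split_ifs <;> simp
  rw [Finset.prod_congr rfl fun θ _ => e1 θ]
  have e2 : ∀ (t : Finset (Emb E)) (g : Emb E → ℤ),
      ∏ θ ∈ t, (2 : F) ^ (g θ) = (2 : F) ^ (∑ θ ∈ t, g θ) := by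
    intro t g
    induction t using Finset.induction_on with
    | empty => simp
    | insert a t ha ih => rw [Finset.prod_insert ha, Finset.sum_insert ha, ih, zpow_add₀ h2]
  rw [e2, sum_wt_mul]
  have h3 : (∀ y ∈ M, φ y = χ y) ↔ (∀ y ∈ M, ψ y = χ y) := by
    constructor
    · intro h4 y hy
      rw [← h y hy, h4 y hy]
    · intro h4 y hy
      rw [h y hy, h4 y hy]
  have h5 : (∀ y ∈ M, conjEmb φ y = χ y) ↔ (∀ y ∈ M, conjEmb ψ y = χ y) := by
    have h6 := conj_agree h
    constructor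
    · intro h4 y hy
      rw [← h6 y hy, h4 y hy]
    · intro h4 y hy
      rw [h6 y hy, h4 y hy]
  have e3 : (if ∀ y ∈ M, φ y = χ y then (1 : ℤ) else 0) =
      (if ∀ y ∈ M, ψ y = χ y then (1 : ℤ) else 0) := by
    by_cases h7 : ∀ y ∈ M, φ y = χ y
    · rw [if_pos h7, if_pos (h3.1 h7)]
    · rw [if_neg h7, if_neg fun h8 => h7 (h3.2 h8)]
  have e4 : (if ∀ y ∈ M, conjEmb φ y = χ y then (1 : ℤ) else 0) =
      (if ∀ y ∈ M, conjEmb ψ y = χ y then (1 : ℤ) else 0) := by
    by_cases h7 : ∀ y ∈ M, conjEmb φ y = χ y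
    · rw [if_pos h7, if_pos (h5.1 h7)]
    · rw [if_neg h7, if_neg fun h8 => h7 (h5.2 h8)]
  rw [e3, e4]
  simp

end weight

theorem pNotIn : StNotIn := by
  intro E _ _ _ Φ hΦ hprim M hrelM Γ _ _ F _ _ ρ
  classical
  obtain ⟨v, hv, φ₁, ψ₁, hM, hne1⟩ := hrelM
  obtain ⟨hodd, hrel⟩ := (mem_relLattice v).mp hv
  let m : Emb E → ℕ := fun φ => (v φ).toNat
  let n : ℕ := ∑ φ, m φ
  have hmn : ∀ φ, m φ ≤ n := fun φ => Finset.single_le_sum (f := m) (fun _ _ => Nat.zero_le _)
    (Finset.mem_univ φ)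
  let s : Finset (Emb E × Fin n) :=
    Finset.univ.filter (fun p : Emb E × Fin n => (p.2 : ℕ) < m p.1)
  have hmult : ∀ φ, multFun s φ = m φ := multFun_filter m hmn
  have hvm : ∀ φ, v φ = m φ - m (conjEmb φ) := by
    intro φ
    simp only [m, hodd φ]
    omega
  have hbij : Function.Bijective (conjEmb (E := E)) :=
    Function.Involutive.bijective conjEmb_conjEmb
  -- weights
  have hsgn : ∀ τ : AbsGal, ∑ φ, (m φ : ℤ) * sgnZ Φ (galEmb τ φ) = 0 := by
    intro τ
    have h1 := hrel τ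
    have h2 : ∑ φ, v φ * sgnZ Φ (galEmb τ φ) = 2 * ∑ φ, (m φ : ℤ) * sgnZ Φ (galEmb τ φ) := by
      have e1 : ∑ φ, v φ * sgnZ Φ (galEmb τ φ) = ∑ φ, (m φ : ℤ) * sgnZ Φ (galEmb τ φ)
          - ∑ φ, (m (conjEmb φ) : ℤ) * sgnZ Φ (galEmb τ φ) := by
        rw [← Finset.sum_sub_distrib]
        apply Finset.sum_congr rfl
        intro φ _
        rw [← sub_mul, ← hvm φ]
      have e2 : ∑ φ, (m (conjEmb φ) : ℤ) * sgnZ Φ (galEmb τ φ)
          = ∑ φ, (m φ : ℤ) * sgnZ Φ (galEmb τ (conjEmb φ)) := by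
        apply Fintype.sum_bijective conjEmb hbij
        intro φ
        rw [conjEmb_conjEmb]
      have e3 : ∑ φ, (m φ : ℤ) * sgnZ Φ (galEmb τ (conjEmb φ))
          = - ∑ φ, (m φ : ℤ) * sgnZ Φ (galEmb τ φ) := by
        rw [← Finset.sum_neg_distrib]
        apply Finset.sum_congr rfl
        intro φ _
        rw [galEmb_conjEmb, sgnZ_conj hΦ]; ring
      rw [e1, e2, e3]; ring
    rw [h2] at h1
    omega
  have hhalf : ∀ τ : AbsGal, (s.card : ℤ)
      = 2 * ((s.filter (fun p => galEmb τ p.1 ∈ Φ)).card : ℤ) := by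
    intro τ
    have h1 := sum_mult s (fun φ => sgnZ Φ (galEmb τ φ))
    have h2 : ∑ φ, multFun s φ * sgnZ Φ (galEmb τ φ) = 0 := by
      rw [← hsgn τ]
      apply Finset.sum_congr rfl
      intro φ _
      rw [hmult]
    rw [h2] at h1
    have h3 : ∑ p ∈ s, sgnZ Φ (galEmb τ p.1)
        = 2 * ((s.filter (fun p => galEmb τ p.1 ∈ Φ)).card : ℤ) - s.card := by
      have e1 : ∀ p ∈ s, sgnZ Φ (galEmb τ p.1) = 2 * (if galEmb τ p.1 ∈ Φ then (1 : ℤ) else 0) - 1 := by
        intro p _
        by_cases h : galEmb τ p.1 ∈ Φ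
        · simp [sgnZ, h]
        · simp [sgnZ, h]
      rw [Finset.sum_congr rfl e1, Finset.sum_sub_distrib, ← Finset.mul_sum, Finset.sum_boole]
      simp
    rw [h3] at h1
    linarith
  obtain ⟨i, hi⟩ : ∃ i : ℕ, i = (s.filter (fun p => galEmb (1 : AbsGal) p.1 ∈ Φ)).card := ⟨_, rfl⟩
  have hcard : s.card = 2 * i := by
    have := hhalf 1
    rw [← hi] at this
    exact_mod_cast this
  have hw : ∀ τ : AbsGal, (s.filter (fun p => galEmb τ p.1 ∈ Φ)).card = i := by
    intro τ
    have h1 := hhalf τ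
    have h2 := hhalf 1
    rw [h2, ← hi] at h1
    have : (i : ℤ) = ((s.filter (fun p => galEmb τ p.1 ∈ Φ)).card : ℤ) := by linarith
    exact_mod_cast this.symm
  let lo : LinearOrder (Emb E × Fin n) := linearOrderOfSTO WellOrderingRel
  let b : Basis (Emb E × Fin n) F (H1 E n F) := Pi.basisFun F (Emb E × Fin n)
  let B := b.exteriorPower (2 * i)
  let S : Set.powersetCard (Emb E × Fin n) (2 * i) := ⟨s, Set.powersetCard.mem_iff.mpr hcard⟩
  let w : Fin (2 * i) → Emb E × Fin n := fun k => Set.powersetCard.ofFinEmbEquiv.symm S k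
  have hwinj : Function.Injective w := (Set.powersetCard.ofFinEmbEquiv.symm S).injective
  have hsw : s = Finset.univ.map ⟨w, hwinj⟩ := by
    ext p
    simp only [Finset.mem_map, Finset.mem_univ, true_and]
    exact (Set.powersetCard.mem_range_ofFinEmbEquiv_symm_iff_mem S p).symm
  have hTate : ρ.IsTateClass n i
      (exteriorPower.ιMulti F (2 * i) (fun k => Pi.single (w k) (1 : F))) := by
    apply isTateClass_monomial
    intro τ
    have h1 := hw τ
    rw [hsw, Finset.filter_map, Finset.card_map] at h1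
    exact h1
  have hBS : (exteriorPower.ιMulti F (2 * i) (fun k => Pi.single (w k) (1 : F))) = B S := by
    simp only [B, exteriorPower.basis_apply]
    rw [exteriorPower.ιMulti_family]
    congr 1
    funext k
    simp only [b, Function.comp_apply, Pi.basisFun_apply, w]
  have hne : (exteriorPower.ιMulti F (2 * i) (fun k => (Pi.single (w k) (1 : F) : H1 E n F)))
      ≠ 0 := by
    rw [hBS]
    exact B.ne_zero S
  refine ⟨n, i, (exteriorPower.ιMulti F (2 * i) (fun k => Pi.single (w k) (1 : F)) :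
    ⋀[F]^(2 * i) (H1 E n F)), (tateClass_iff ρ n i _).mpr ⟨_, rfl, hTate⟩, ?_⟩
  -- the scaling
  let a : Emb E → ℤ := wt φ₁ ψ₁
  have haodd : ∀ φ, a (conjEmb φ) = - a φ := wt_conj φ₁ ψ₁
  let c : Emb E × Fin n → F := fun p => (2 : F) ^ (a p.1)
  let sc : H1 E n F →ₗ[F] H1 E n F := LinearMap.pi fun p => c p • LinearMap.proj p
  let A : Subalgebra F (ExteriorAlgebra F (H1 E n F)) :=
    AlgHom.equalizer (ExteriorAlgebra.map sc) (AlgHom.id F _)
  have hAmem : ∀ l : List (Emb E × Fin n), (l.map c).prod = 1 → mono F l ∈ A := by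
    intro l hl
    rw [AlgHom.mem_equalizer]
    rw [map_scale_mono c l, hl, one_smul]
    rfl
  have hle : normAlg M n (ρ.onH1 n) ρ.χ ≤ A := by
    apply Algebra.adjoin_le
    rintro y (hy | ⟨-, hy⟩)
    · obtain ⟨z, rfl, hz⟩ := (tateClass_iff ρ n 1 y).mp hy
      apply coe_eq_sum_monomials ρ z hz A
      intro l hnd hlen hwt
      apply hAmem
      match l, hlen, hnd, hwt with
      | [p, q], _, hnd, hwt =>
        have hpq : p ≠ q := by
          intro h
          rw [h] at hnd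
          simp at hnd
        have hwt' : ∀ τ : AbsGal, (if galEmb τ p.1 ∈ Φ then (1 : ℤ) else 0)
            + (if galEmb τ q.1 ∈ Φ then 1 else 0) = 1 := by
          intro τ
          have h1 := hwt τ
          have h2 := sum_mult [p, q].toFinset (fun φ => if galEmb τ φ ∈ Φ then (1 : ℤ) else 0)
          have h3 : ∑ φ : Emb E, Set.indicator {φ : Emb E | galEmb τ φ ∈ Φ}
              (multFun [p, q].toFinset) φ = ∑ φ : Emb E, multFun [p, q].toFinset φ
                * (if galEmb τ φ ∈ Φ then (1 : ℤ) else 0) := by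
            apply Finset.sum_congr rfl
            intro φ _
            by_cases h : galEmb τ φ ∈ Φ
            · rw [Set.indicator_of_mem (by exact h)]; simp [h]
            · rw [Set.indicator_of_notMem (by exact h)]; simp [h]
          rw [h3, ← h2] at h1
          rw [show [p, q].toFinset = {p, q} by simp, Finset.sum_pair hpq] at h1
          simpa using h1
        have hq : q.1 = conjEmb p.1 := by
          apply hprim
          intro τ
          have h1 := hwt' τ
          have h2 := hΦ (galEmb τ p.1)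
          rw [← galEmb_conjEmb] at h2
          by_cases h3 : galEmb τ p.1 ∈ Φ
          · have h4 := h2.mp h3
            by_cases h5 : galEmb τ q.1 ∈ Φ
            · simp [h3, h5] at h1
            · exact ⟨fun h => absurd h h5, fun h => absurd h h4⟩
          · have h4 : galEmb τ (conjEmb p.1) ∈ Φ := by
              by_contra h
              exact h3 (h2.mpr h)
            by_cases h5 : galEmb τ q.1 ∈ Φ
            · exact ⟨fun _ => h4, fun _ => h5⟩
            · simp [h3, h5] at h1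
        simp only [List.map_cons, List.map_nil, List.prod_cons, List.prod_nil, mul_one, c, hq,
          haodd]
        rw [← zpow_add₀ (two_ne_zero), add_neg_cancel, zpow_zero]
    · show y ∈ A
      rw [AlgHom.mem_equalizer]
      exact hy (fun θ => (2 : F) ^ (a θ)) (fun χ => fibre_prod hM χ)
  intro hmem
  have hA := hle hmem
  have hmono : ((exteriorPower.ιMulti F (2 * i) (fun k => (Pi.single (w k) (1 : F) : H1 E n F)) :
      ⋀[F]^(2 * i) (H1 E n F)) : ExteriorAlgebra F (H1 E n F)) = mono F (List.ofFn w) := by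
    rw [exteriorPower.ιMulti_apply_coe, ExteriorAlgebra.ιMulti_apply, mono, List.map_ofFn]
    rfl
  rw [hmono, AlgHom.mem_equalizer] at hA
  have hA2 := map_scale_mono c (List.ofFn w)
  rw [show (ExteriorAlgebra.map sc) (mono F (List.ofFn w)) = mono F (List.ofFn w) from hA] at hA2
  have hprod : ((List.ofFn w).map c).prod = (2 : F) ^ (v φ₁ - v ψ₁) := by
    rw [List.map_ofFn, List.prod_ofFn]
    have e1 : ∏ k, (c ∘ w) k = ∏ p ∈ s, c p := by
      rw [hsw, Finset.prod_map]
      rfl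
    rw [e1]
    have e2 : ∏ p ∈ s, c p = (2 : F) ^ (∑ p ∈ s, a p.1) := by
      simp only [c]
      induction s using Finset.induction_on with
      | empty => simp
      | insert a t ha ih =>
        rw [Finset.prod_insert ha, Finset.sum_insert ha, ih, zpow_add₀ two_ne_zero]
    rw [e2, sum_mult s a]
    congr 1
    have e3 : ∑ φ : Emb E, multFun s φ * a φ = ∑ φ : Emb E, a φ * (m φ : ℤ) := by
      apply Finset.sum_congr rfl
      intro φ _
      rw [hmult, mul_comm]
    have e4 : ∑ φ : Emb E, a φ * v φ = 2 * ∑ φ : Emb E, a φ * (m φ : ℤ) := by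
      have e5 : ∑ φ : Emb E, a φ * v φ = ∑ φ : Emb E, a φ * (m φ : ℤ)
          - ∑ φ : Emb E, a φ * (m (conjEmb φ) : ℤ) := by
        rw [← Finset.sum_sub_distrib]
        apply Finset.sum_congr rfl
        intro φ _
        rw [← mul_sub, ← hvm φ]
      have e6 : ∑ φ : Emb E, a φ * (m (conjEmb φ) : ℤ) =
          ∑ φ : Emb E, a (conjEmb φ) * (m φ : ℤ) := by
        apply Fintype.sum_bijective conjEmb hbij
        intro φ
        rw [conjEmb_conjEmb]
      have e7 : ∑ φ : Emb E, a (conjEmb φ) * (m φ : ℤ) =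
          - ∑ φ : Emb E, a φ * (m φ : ℤ) := by
        rw [← Finset.sum_neg_distrib]
        apply Finset.sum_congr rfl
        intro φ _
        rw [haodd]; ring
      rw [e5, e6, e7]; ring
    have e8 : ∑ φ : Emb E, a φ * v φ = v φ₁ - v ψ₁ - v (conjEmb φ₁) + v (conjEmb ψ₁) :=
      sum_wt_mul φ₁ ψ₁ v
    rw [hodd, hodd] at e8
    rw [e3]
    omega
  rw [hprod] at hA2
  have h2N : ((2 : F) ^ (v φ₁ - v ψ₁) - 1) ≠ 0 := by
    intro h
    have h3 : (2 : F) ^ (v φ₁ - v ψ₁) = 1 := sub_eq_zero.mp h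
    have h0 : v φ₁ - v ψ₁ ≠ 0 := sub_ne_zero.mpr hne1
    have key : ∀ k : ℕ, k ≠ 0 → (2 : F) ^ k ≠ 1 := by
      intro k hk h4
      have h5 : ((2 : ℕ) : F) ^ k = 1 := by exact_mod_cast h4
      have h6 : (2 : ℕ) ^ k = 1 := by exact_mod_cast h5
      have := Nat.one_lt_two_pow hk
      omega
    rcases Int.lt_or_gt_of_ne h0 with h4 | h4
    · obtain ⟨k, hk⟩ := Int.exists_eq_neg_ofNat h4.le
      rw [hk, zpow_neg, zpow_natCast, inv_eq_one] at h3
      exact key k (by omega) h3
    · obtain ⟨k, hk⟩ := Int.eq_ofNat_of_zero_le h4.le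
      rw [hk, zpow_natCast] at h3
      exact key k (by omega) h3
  have hzero : mono F (List.ofFn w) = 0 := by
    have h5 : ((2 : F) ^ (v φ₁ - v ψ₁) - 1) • mono F (List.ofFn w) = 0 := by
      rw [sub_smul, one_smul, ← hA2, sub_self]
    exact (smul_eq_zero.mp h5).resolve_left h2N
  rw [← hmono] at hzero
  exact hne (Subtype.ext hzero)

end Pool.Agent.Lib.MP_640417_ag.Sm
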