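import Pool.Agent.Lib.MP_640417_ag.Sm.Spec

/-!
# Relations from orthogonality to a stable space
-/

namespace Pool.Agent.Lib.MP_640417_ag.Sm

open Module Finset MulAction NumberField Pool.Agent.Lib.MP_640417_ag
  Pool.Agent.Lib.MP_640417_ag.Far Pool.Agent.Lib.MP_640417_ag.Full
  Pool.Agent.Lib.MP_640417_ag.Sharp Pool.Agent.Lib.MP_640417_ag.Wc

/-- Shift of the summation variable. -/
private lemma relN_shift {S G : Type} [Fintype S] [Group G] [MulAction G S] {R : Type*}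
    [AddCommMonoid R] (γ : G) (F : S → S → R) :
    ∑ s, F s (γ • s) = ∑ s, F (γ⁻¹ • s) s := by
  apply Fintype.sum_bijective (fun s => γ • s) (MulAction.bijective γ)
  intro s
  rw [inv_smul_smul]

/-- **Sign functions orthogonal to a stable space.** -/
theorem pRelN : StRelN := by
  classical
  intro S G _ _ _ _ s₀ z N U hU hst hod e he hperp
  obtain ⟨f, hf, hf0⟩ := Set.not_subset.mp (show ¬ (U : Set (S → ℚ)) ⊆ cosetC s₀ N from hU)
  have hf1 : ∃ γ γ' : G, γ⁻¹ * γ' ∈ N ∧ f (γ • s₀) ≠ f (γ' • s₀) := by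
    by_contra hcon
    push Not at hcon
    exact hf0 hcon
  obtain ⟨γ₁, γ₂, hγ, hne⟩ := hf1
  obtain ⟨b, hb⟩ := IsLocalization.exist_integer_multiples_of_finite (nonZeroDivisors ℤ) f
  have hb0 : ((b : ℤ) : ℚ) ≠ 0 := by
    exact_mod_cast nonZeroDivisors.ne_zero b.2
  choose v hv using hb
  have hv' : ∀ s, ((v s : ℤ) : ℚ) = (b : ℤ) * f s := by
    intro s
    have := hv s
    rw [zsmul_eq_mul] at this
    exact this
  refine ⟨he, v, ⟨?_, ?_⟩, γ₁, γ₂, hγ, ?_⟩
  · intro s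
    have h1 : ((v (z • s) : ℤ) : ℚ) = ((- v s : ℤ) : ℚ) := by
      push_cast
      rw [hv', hv', hod f hf s]
      ring
    exact_mod_cast h1
  · intro γ
    have h1 := hperp _ (hst f hf γ⁻¹)
    have h2 : ((∑ s, v s * e (γ • s) : ℤ) : ℚ) = 0 := by
      push_cast
      calc ∑ s, ((v s : ℤ) : ℚ) * ((e (γ • s) : ℤ) : ℚ)
          = ∑ s, ((b : ℤ) : ℚ) * (f s * (e (γ • s) : ℚ)) := by
            apply Finset.sum_congr rfl
            intro s _
            rw [hv' s]
            ring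
        _ = (b : ℤ) * ∑ s, f s * (e (γ • s) : ℚ) := by rw [Finset.mul_sum]
        _ = (b : ℤ) * ∑ s, f (γ⁻¹ • s) * (e s : ℚ) := by
            rw [relN_shift γ (fun s t => f s * (e t : ℚ))]
        _ = 0 := by
            rw [h1, mul_zero]
    exact_mod_cast h2
  · intro h
    apply hne
    have h1 : ((v (γ₁ • s₀) : ℤ) : ℚ) = ((v (γ₂ • s₀) : ℤ) : ℚ) := by rw [h]
    rw [hv', hv'] at h1
    exact mul_left_cancel₀ hb0 h1

end Pool.Agent.Lib.MP_640417_ag.Sm
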