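import Pool.Agent.Lib.MP_640417_ag.Sm.Spec

/-!
# The spaces attached to quartic and sextic subfields not contained in `M`

By the last statement of `StSpDim` the subgroup `H` is determined by the functions in `sp s₀ z H`:
if these are all constant on the cosets of `N`, then `N ≤ H`.
-/

set_option autoImplicit false

namespace Pool.Agent.Lib.MP_640417_ag.Sm

open Module Finset MulAction NumberField Pool.Agent.Lib.MP_640417_ag
  Pool.Agent.Lib.MP_640417_ag.Far Pool.Agent.Lib.MP_640417_ag.Full
  Pool.Agent.Lib.MP_640417_ag.Sharp Pool.Agent.Lib.MP_640417_ag.Wc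

theorem pSpOut (hSpDim : StSpDim) : StSpOut := by
  intro S G _ _ _ _ _ s₀ z hz hzz N H hH hN hle
  refine hN fun ν hν => (hSpDim S G s₀ z hz hzz H hH).2.2.2 ν fun f hf => ?_
  have h := hle hf ν 1 (by simpa using N.inv_mem hν)
  rwa [one_smul] at h

end Pool.Agent.Lib.MP_640417_ag.Sm
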