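import Pool.Agent.Lib.MP_640417_ag.Sm.Spec
import Pool.Agent.Lib.MP_640417_ag.Sharp.SubB2

/-!
# Spaces of dimension `2` and quartic and sextic subfields, relative form
-/

namespace Pool.Agent.Lib.MP_640417_ag.Sm

open Module Finset MulAction NumberField Pool.Agent.Lib.MP_640417_ag
  Pool.Agent.Lib.MP_640417_ag.Far Pool.Agent.Lib.MP_640417_ag.Full
  Pool.Agent.Lib.MP_640417_ag.Sharp Pool.Agent.Lib.MP_640417_ag.Wc

/-- If `N ≤ H0` then the functions are constant on the cosets of `N`. -/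
private lemma subBN_const {S G : Type} [Group G] [MulAction G S] (s₀ : S) (N : Subgroup G)
    (U : Submodule ℚ (S → ℚ)) (h : N ≤ H0 G s₀ U) : U ≤ cosetC s₀ N := by
  intro u hu γ γ' hγ
  have h1 := (mem_H0 s₀ U (γ⁻¹ * γ')).1 (h hγ) u hu γ
  rw [← mul_smul, mul_inv_cancel_left] at h1
  exact h1.symm

theorem pSubBN (hEvIndex : StEvIndex) (hEvSp : StEvSp) (hParQ : StParQ) : StSubBN := by
  intro S G _ _ _ _ _ s₀ z hz hzz g hcard N n U hU hno hN
  obtain ⟨T, hT⟩ : ∃ T : Set (Subgroup G),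
    T = {H | 4 ∣ g ∧ H ∈ out N (quart s₀ z)} ∪ out N (sext s₀ z) := ⟨_, rfl⟩
  have hkey : ∀ i, finrank ℚ (U i) = 2 →
      finrank ℚ (endF G (U i)) = finrank ℚ ↥(U i ⊓ invF ℚ (stabilizer G s₀)) →
      (badSet z (U i)).Nonempty → H0 G s₀ (U i) ∈ T ∧ U i = sp s₀ z (H0 G s₀ (U i)) := by
    intro i h2 he hb
    have hNi : ¬ N ≤ H0 G s₀ (U i) := fun h => hN i (subBN_const s₀ N (U i) h)
    obtain ⟨hirr, hodd⟩ := hU i
    obtain ⟨hst, hzn, hcase⟩ := hEvIndex S G s₀ z (U i) hirr hodd h2 he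
    obtain ⟨hs4, hs6⟩ := hEvSp S G s₀ z hz hzz (U i) hirr hodd h2 hst hzn
    rcases hcase with ⟨hk, h4⟩ | ⟨hk, h6⟩
    · obtain ⟨hq, hsp⟩ := hs4 h4
      refine ⟨?_, hsp⟩
      rw [hT]
      left
      refine ⟨?_, hq, hNi⟩
      obtain ⟨e, hsgn, U', hU's, hiso, hperp⟩ := hb
      have hirr' := SubB2_irr hirr hU's hiso
      have hodd' := IsoF.odd z hiso hodd
      have h2' : finrank ℚ U' = 2 := by rw [← IsoF.finrank_eq hiso, h2]
      have he' : finrank ℚ (endF G U') = finrank ℚ ↥(U' ⊓ invF ℚ (stabilizer G s₀)) := by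
        rw [SubB2_end hirr.2.1 hU's hiso, SubB2_inv _ hirr.2.1 hiso, he]
      obtain ⟨hst', hzn', hcase'⟩ := hEvIndex S G s₀ z U' hirr' hodd' h2' he'
      obtain ⟨hs4', -⟩ := hEvSp S G s₀ z hz hzz U' hirr' hodd' h2' hst' hzn'
      rw [SubB2_ker hirr.2.1 hiso] at hcase'
      have h4' : (H0 G s₀ U').index = 4 := by omega
      obtain ⟨hq', hsp'⟩ := hs4' h4'
      rw [hsp'] at hperp
      exact hParQ S G s₀ z hz hzz g hcard _ hq' e hsgn hperp
    · obtain ⟨hq, hsp⟩ := hs6 h6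
      refine ⟨?_, hsp⟩
      rw [hT]
      exact Or.inr ⟨hq, hNi⟩
  have hle : {i : Fin n | finrank ℚ (U i) = 2 ∧
      finrank ℚ (endF G (U i)) = finrank ℚ ↥(U i ⊓ invF ℚ (stabilizer G s₀)) ∧
      (badSet z (U i)).Nonempty}.ncard ≤ T.ncard := by
    refine Set.ncard_le_ncard_of_injOn (fun i => H0 G s₀ (U i)) ?_ ?_ (Set.toFinite T)
    · rintro i ⟨h2, he, hb⟩
      exact (hkey i h2 he hb).1
    · rintro i ⟨h2, he, hb⟩ j ⟨h2', he', hb'⟩ hij
      by_contra hne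
      have h1 := (hkey i h2 he hb).2
      have h3 := (hkey j h2' he' hb').2
      have hij' : H0 G s₀ (U i) = H0 G s₀ (U j) := hij
      rw [← hij', ← h1] at h3
      apply hno i j hne
      rw [h3]
      exact IsoF.refl _
  refine hle.trans ?_
  rw [hT]
  refine (Set.ncard_union_le _ _).trans ?_
  refine Nat.add_le_add_right ?_ _
  by_cases h4 : 4 ∣ g
  · rw [if_pos h4]
    exact Set.ncard_le_ncard (fun H hH => hH.2) (Set.toFinite _)
  · rw [if_neg h4]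
    have : {H : Subgroup G | 4 ∣ g ∧ H ∈ out N (quart s₀ z)} = ∅ := by
      ext H
      simp [h4]
    rw [this, Set.ncard_empty]

end Pool.Agent.Lib.MP_640417_ag.Sm
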