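import Pool.Agent.Lib.MP_640417_ag.Sm.Spec
import Pool.Agent.Lib.MP_640417_ag.Sharp.Transfer

/-!
# From sign functions to primitive CM types, relative to a subfield
-/

set_option autoImplicit false

namespace Pool.Agent.Lib.MP_640417_ag.Sm

open Module Finset MulAction NumberField Pool.Agent.Lib.MP_640417_ag
  Pool.Agent.Lib.MP_640417_ag.Far Pool.Agent.Lib.MP_640417_ag.Full
  Pool.Agent.Lib.MP_640417_ag.Sharp

theorem pTransN (hF : StFieldN) : StTransN := by
  classical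
  intro E _ _ _ g hE φ₀ z hz N hN
  have hagree := (hF E φ₀ z hz N hN).2
  have hA : (relN φ₀ z N : Set (Emb E → ℤ)).ncard ≤
      {Φ : Set (Emb E) | IsCMType Φ ∧ HasRel (fixAt φ₀ N) Φ}.ncard := by
    have hsgn : ∀ e : Emb E → ℤ, IsSgn z e → ∀ φ, sgnZ {φ | e φ = 1} φ = e φ := by
      intro e he φ
      rcases he.1 φ with h | h <;> simp [sgnZ, h]
    refine Set.ncard_le_ncard_of_injOn (fun e => {φ | e φ = 1}) ?_ ?_ (Set.toFinite _)
    · rintro e ⟨he, v, ⟨hv1, hv2⟩, γ, γ', hγ, hne⟩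
      refine ⟨?_, v, ⟨fun φ => ?_, fun τ => ?_⟩, γ • φ₀, γ' • φ₀, (hagree γ γ').1 hγ, hne⟩
      · intro φ
        have h1 := he.2 φ
        rw [hz] at h1
        simp only [Set.mem_ofPred_eq, h1]
        rcases he.1 φ with h | h <;> simp [h]
      · rw [← hz]
        exact hv1 φ
      · let act := galAction E
        have h1 := hv2 ⟨MulAction.toPermHom AbsGal (Emb E) τ, ⟨τ, rfl⟩⟩
        rw [← h1]
        refine Finset.sum_congr rfl fun φ _ => ?_
        rw [hsgn e he]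
        rfl
    · rintro e ⟨he, -⟩ e' ⟨he', -⟩ h
      funext φ
      rw [← hsgn e he φ, ← hsgn e' he' φ]
      exact congrArg (fun Φ => sgnZ Φ φ) h
  have hB := Transfer_imprim g hE z hz
  have hC : {Φ : Set (Emb E) | IsCMType Φ ∧ HasRel (fixAt φ₀ N) Φ}.ncard ≤
      {Φ : Set (Emb E) | IsCMType Φ ∧ OddGal.Primitive Φ ∧ HasRel (fixAt φ₀ N) Φ}.ncard +
      {Φ : Set (Emb E) | IsCMType Φ ∧ ¬ OddGal.Primitive Φ}.ncard := by
    refine le_trans (Set.ncard_le_ncard ?_ (Set.toFinite _)) (Set.ncard_union_le _ _)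
    rintro Φ ⟨h1, h2⟩
    by_cases h3 : OddGal.Primitive Φ
    · exact Or.inl ⟨h1, h3, h2⟩
    · exact Or.inr ⟨h1, h3⟩
  omega

end Pool.Agent.Lib.MP_640417_ag.Sm
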