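import Pool.Agent.Lib.MP_640417_ag.Sm.CountN
import Pool.Agent.Lib.MP_640417_ag.Sharp.Final

/-!
# The upper bound relative to a subfield
-/

namespace Pool.Agent.Lib.MP_640417_ag.Sm

open Module Finset MulAction NumberField Pool.Agent.Lib.MP_640417_ag
  Pool.Agent.Lib.MP_640417_ag.Far Pool.Agent.Lib.MP_640417_ag.Full
  Pool.Agent.Lib.MP_640417_ag.Sharp Pool.Agent.Lib.MP_640417_ag.Wc

/-- The bound for CM fields. -/
theorem fieldsN (hUp : ∃ C : ℝ, 0 < C ∧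
    ∀ (S G : Type) [Fintype S] [Group G] [Finite G] [MulAction G S] [IsPretransitive G S]
      (s₀ : S) (z : G) (_ : ∀ γ : G, γ * z = z * γ) (_ : ∀ s : S, z • z • s = s)
      (_ : ∀ s : S, z • s ≠ s) (g : ℕ) (_ : Fintype.card S = 2 * g) (_ : 2 ≤ g)
      (N : Subgroup G) (_ : stabilizer G s₀ ≤ N) (k : ℕ),
      ((relNK s₀ z N k : Set (S → ℤ)).ncard : ℝ)
      ≤ C * (min 1 ((k : ℝ) * N.index / (2 * g)) *
          (((if 2 ∣ g then (out N (quad s₀ z)).ncard else 0 : ℕ) : ℝ) / Real.sqrt g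
        + (((if 4 ∣ g then (out N (quart s₀ z)).ncard else 0) + (out N (sext s₀ z)).ncard : ℕ) : ℝ)
            / g
        + (((out N (dih 4 s₀ z)).ncard + (out N (dih 6 s₀ z)).ncard : ℕ) : ℝ)
            * Real.log (g + 1) / g)
        + Real.log g ^ (-(1 / 4) : ℝ)) * 2 ^ g)
    (hF : StFieldN) (hCorrA : StCorrA) : ∃ C : ℝ, 0 < C ∧
    ∀ (E : Type) [Field E] [NumberField E] [IsCMField E] (g : ℕ) (_ : finrank ℚ E = 2 * g)
      (_ : 2 ≤ g) (z : galGroup E) (_ : ∀ φ : Emb E, z • φ = conjEmb φ)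
      (M : IntermediateField ℚ E) (k : ℕ),
      ({e : Emb E → ℤ | IsSgn z e ∧ ∃ v ∈ oddRel z e,
        (∃ φ ψ : Emb E, (∀ x ∈ M, φ x = ψ x) ∧ v φ ≠ v ψ) ∧
        {s : Emb E | v s ≠ 0}.ncard ≤ 4 * k}.ncard : ℝ)
      ≤ C * (min 1 ((k : ℝ) / finrank M E) * rate E M g + Real.log g ^ (-(1 / 4) : ℝ))
        * 2 ^ g := by
  obtain ⟨C, hC, hUp⟩ := hUp
  refine ⟨2 * C, by positivity, ?_⟩
  intro E _ _ _ g hE hg2 z hzs M k
  classical
  obtain ⟨φ₀⟩ : Nonempty (Emb E) := by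
    rw [← Fintype.card_pos_iff, card_emb]
    exact finrank_pos
  have hpre : IsPretransitive (galGroup E) (Emb E) := isPretransitive_galGroup
  have hz : ∀ γ : galGroup E, γ * z = z * γ := by
    intro γ
    obtain ⟨τ, hτ⟩ := exists_of_galGroup γ
    apply Subtype.ext
    apply Equiv.ext
    intro φ
    show γ • (z • φ) = z • (γ • φ)
    rw [hzs, hzs, hτ, hτ, galEmb_conjEmb]
  have hzz : ∀ φ : Emb E, z • z • φ = φ := fun φ => by rw [hzs, hzs, conjEmb_conjEmb]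
  have hzne : ∀ φ : Emb E, z • φ ≠ φ := fun φ => by rw [hzs]; exact conjEmb_ne φ
  have hcard : Fintype.card (Emb E) = 2 * g := by rw [card_emb, hE]
  obtain ⟨N, hN, hNM⟩ := (hCorrA E φ₀ z hzs).1 M
  obtain ⟨⟨e1, e2, e3, e4⟩, hag⟩ := hF E φ₀ z hzs N hN
  have hidx : finrank ℚ M = N.index := by
    have h1 := ((hCorrA E φ₀ z hzs).2.2 N hN).1
    rw [← hNM]
    exact h1
  rw [hNM] at e1 e2 e3 e4 hag
  have hset : {e : Emb E → ℤ | IsSgn z e ∧ ∃ v ∈ oddRel z e,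
      (∃ φ ψ : Emb E, (∀ x ∈ M, φ x = ψ x) ∧ v φ ≠ v ψ) ∧
      {s : Emb E | v s ≠ 0}.ncard ≤ 4 * k} ⊆ relNK φ₀ z N k := by
    rintro e ⟨he, v, hv, ⟨φ, ψ, hφψ, hne⟩, hs⟩
    obtain ⟨γ, rfl⟩ := MulAction.exists_smul_eq (galGroup E) φ₀ φ
    obtain ⟨γ', rfl⟩ := MulAction.exists_smul_eq (galGroup E) φ₀ ψ
    exact ⟨he, v, hv, ⟨γ, γ', (hag γ γ').mpr hφψ, hne⟩, hs⟩
  have hfin : (relNK φ₀ z N k : Set (Emb E → ℤ)).Finite := finite_isSgn z _
  have h0 : ({e : Emb E → ℤ | IsSgn z e ∧ ∃ v ∈ oddRel z e,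
      (∃ φ ψ : Emb E, (∀ x ∈ M, φ x = ψ x) ∧ v φ ≠ v ψ) ∧
      {s : Emb E | v s ≠ 0}.ncard ≤ 4 * k}.ncard : ℝ)
      ≤ ((relNK φ₀ z N k : Set (Emb E → ℤ)).ncard : ℝ) := by
    exact_mod_cast Set.ncard_le_ncard hset hfin
  have h1 := hUp (Emb E) (galGroup E) φ₀ z hz hzz hzne g hcard hg2 N hN k
  rw [← e1, ← e2, ← e3, ← e4, ← e4] at h1
  refine h0.trans (h1.trans ?_)
  have hg0 : (0 : ℝ) < g := by
    have : 0 < g := by omega
    exact_mod_cast this
  have hg2' : (2 : ℝ) ≤ g := by exact_mod_cast hg2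
  have hlog0 : 0 ≤ Real.log g := Real.log_natCast_nonneg g
  have hlog1 : 0 ≤ Real.log (g + 1) := Real.log_nonneg (by linarith)
  have hlog : Real.log (g + 1) ≤ 2 * Real.log g := by
    have h2 : Real.log ((g : ℝ) + 1) ≤ Real.log ((g : ℝ) ^ 2) := by
      apply Real.log_le_log (by linarith)
      nlinarith
    rw [Real.log_pow] at h2
    exact_mod_cast h2
  have hl0 : 0 ≤ Real.log g ^ (-(1 / 4) : ℝ) := Real.rpow_nonneg hlog0 _
  have hμe : (k : ℝ) * N.index / (2 * g) = (k : ℝ) / finrank M E := by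
    have h2 : finrank ℚ M * finrank M E = finrank ℚ E := Module.finrank_mul_finrank ℚ M E
    rw [hE, hidx] at h2
    have h3 : (N.index : ℝ) * (finrank M E : ℝ) = 2 * g := by exact_mod_cast h2
    have h4 : (0 : ℝ) < (N.index : ℝ) := by
      have : N.index ≠ 0 := by
        intro h
        rw [h] at h3
        simp only [Nat.cast_zero, zero_mul] at h3
        linarith
      exact_mod_cast Nat.pos_of_ne_zero this
    have h5 : (0 : ℝ) < (finrank M E : ℝ) := by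
      by_contra hcon
      have : (finrank M E : ℝ) = 0 := le_antisymm (not_lt.mp hcon) (Nat.cast_nonneg _)
      rw [this, mul_zero] at h3
      linarith
    rw [← h3]
    field_simp
  rw [hμe, rate]
  push_cast
  set q : ℝ := ((numDih E M 4 : ℝ) + numDih E M 6) with hq
  have hq0 : 0 ≤ q := by positivity
  have h3 : q * Real.log (g + 1) / g ≤ 2 * (q * Real.log g / g) := by
    rw [← mul_div_assoc]
    apply div_le_div_of_nonneg_right _ hg0.le
    nlinarith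
  have ha : 0 ≤ (if 2 ∣ g then (numQuad E M : ℝ) else 0) / Real.sqrt g := by
    split_ifs <;> positivity
  have hb : 0 ≤ ((if 4 ∣ g then (numQuart E M : ℝ) else 0) + numSext E M) / g := by
    split_ifs <;> positivity
  have hc : (if 2 ∣ g then (numQuad E M : ℝ) / Real.sqrt g else 0)
      = (if 2 ∣ g then (numQuad E M : ℝ) else 0) / Real.sqrt g := by
    split_ifs <;> simp
  rw [hc]
  have h2g : (0 : ℝ) < 2 ^ g := by positivity
  set μ : ℝ := min 1 ((k : ℝ) / finrank M E) with hμ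
  have hμ0 : 0 ≤ μ := le_min zero_le_one (by positivity)
  apply mul_le_mul_of_nonneg_right _ h2g.le
  have h4 : μ * (q * Real.log (g + 1) / g) ≤ μ * (2 * (q * Real.log g / g)) :=
    mul_le_mul_of_nonneg_left h3 hμ0
  nlinarith [mul_nonneg hC.le (mul_nonneg hμ0 ha), mul_nonneg hC.le (mul_nonneg hμ0 hb),
    mul_nonneg hC.le hl0, mul_le_mul_of_nonneg_left h4 hC.le]

end Pool.Agent.Lib.MP_640417_ag.Sm
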