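import Pool.Agent.Lib.MP_640417_ag.Wc.Group
import Pool.Agent.Lib.MP_640417_ag.Sharp.SpecL
import Pool.Agent.Lib.MP_640417_ag.RelExotic

/-!
# The sharp criterion relative to a subfield

`E` is a CM field, `M` a subfield of `E`. We count the CM types `Φ` on `E` for which some Tate class
on some power of `A_Φ` is not generated by Tate classes of codimension `1` and Tate classes fixed by
the norm one torus of `E / M`. For `M = ℚ` these are the CM types with exotic classes.

`S`, `G`, `s₀`, `z` are as in `Sharp/Defs.lean`: `G` acts transitively on `S`, `z` is central,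
`z • z • s = s`, `z • s ≠ s`. `N` is a subgroup containing the stabilizer of `s₀` (it corresponds to
`M`). All the statements below are generalizations of statements in `Sharp/SpecU.lean`,
`Sharp/SpecL.lean`, `Sharp/SpecF.lean`, `All/LowerMain.lean`, `Wc/Spec.lean` (there `N = G`, `M = ℚ`):
copy the proofs which are there and change them as described.
-/

namespace Pool.Agent.Lib.MP_640417_ag.Sm

open Module Finset MulAction NumberField Pool.Agent.Lib.MP_640417_ag
  Pool.Agent.Lib.MP_640417_ag.Far Pool.Agent.Lib.MP_640417_ag.Full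
  Pool.Agent.Lib.MP_640417_ag.Sharp Pool.Agent.Lib.MP_640417_ag.Wc

section groups

variable {S G : Type} [Group G] [MulAction G S]

/-- The subgroups in a set which do not contain `N` (subfields not contained in `M`). -/
def out (N : Subgroup G) (X : Set (Subgroup G)) : Set (Subgroup G) := {H | H ∈ X ∧ ¬ N ≤ H}

/-- The sign functions with an odd relation which is not constant on the cosets of `N`. -/
def relN [Fintype S] (s₀ : S) (z : G) (N : Subgroup G) : Set (S → ℤ) :=
  {e | IsSgn z e ∧ ∃ v ∈ oddRel z e, ∃ γ γ' : G, γ⁻¹ * γ' ∈ N ∧ v (γ • s₀) ≠ v (γ' • s₀)}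

/-- The sign functions with an odd relation which is not constant on the cosets of `N` and has at
most `4 k` nonzero values. -/
def relNK [Fintype S] (s₀ : S) (z : G) (N : Subgroup G) (k : ℕ) : Set (S → ℤ) :=
  {e | IsSgn z e ∧ ∃ v ∈ oddRel z e, (∃ γ γ' : G, γ⁻¹ * γ' ∈ N ∧ v (γ • s₀) ≠ v (γ' • s₀)) ∧
    {s : S | v s ≠ 0}.ncard ≤ 4 * k}

end groups

/-- (SubAN) Spaces of dimension `1`.

Proof. Copy of `pSubA` (`Full/SubA.lean`): `i ↦ H i = kerSub G (U i)` is injective with values in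
`quad s₀ z`. New: `¬ N ≤ H i`. If `N ≤ kerSub G (U i)` then for `u ∈ U i` and `γ⁻¹ γ' ∈ N`:
`γ (γ⁻¹ γ') γ⁻¹ = γ' γ⁻¹ ∈ kerSub G (U i)` (normal), so `u (γ' s₀) = u (γ' γ⁻¹ γ s₀) = u (γ s₀)` (this is
the private lemma `SmallIn_const` in `Wc/SmallIn.lean`, copy it), so `U i ≤ cosetC s₀ N`, a
contradiction. -/
def StSubAN : Prop := ∀ (S G : Type) [Fintype S] [Group G] [Finite G] [MulAction G S]
  [IsPretransitive G S] (s₀ : S) (z : G) (N : Subgroup G) (n : ℕ)
  (U : Fin n → Submodule ℚ (S → ℚ)),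
  (∀ i, IsIrr G (U i) ∧ IsOddSp z (U i)) → (∀ i j, i ≠ j → ¬ IsoF G (U i) (U j)) →
  (∀ i, ¬ U i ≤ cosetC s₀ N) →
  {i : Fin n | finrank ℚ (U i) = 1}.ncard ≤ (out N (quad s₀ z)).ncard

/-- (SubBN) Spaces of dimension `2`, quartic and sextic subfields.

Proof. Copy of `pSubB2` (`Sharp/SubB2.lean`; use `pEvIndex`, `pEvSp`, `pParQ`, all proven):
`i ↦ H0 G s₀ (U i)` is injective with values in `quart ∪ sext`. New: `¬ N ≤ H0 G s₀ (U i)`. If
`N ≤ H0 G s₀ (U i)` then for `u ∈ U i`, `ν = γ⁻¹ γ' ∈ N`: `u (γ' s₀) = u (γ (ν s₀)) = u (γ s₀)` (`mem_H0`), so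
`U i ≤ cosetC s₀ N`, a contradiction. -/
def StSubBN : Prop := ∀ (S G : Type) [Fintype S] [Group G] [Finite G] [MulAction G S]
  [IsPretransitive G S] (s₀ : S) (z : G) (_ : ∀ γ : G, γ * z = z * γ)
  (_ : ∀ s : S, z • z • s = s) (g : ℕ) (_ : Fintype.card S = 2 * g) (N : Subgroup G) (n : ℕ)
  (U : Fin n → Submodule ℚ (S → ℚ)),
  (∀ i, IsIrr G (U i) ∧ IsOddSp z (U i)) → (∀ i j, i ≠ j → ¬ IsoF G (U i) (U j)) →
  (∀ i, ¬ U i ≤ cosetC s₀ N) →
  {i : Fin n | finrank ℚ (U i) = 2 ∧
      finrank ℚ (endF G (U i)) = finrank ℚ ↥(U i ⊓ invF ℚ (stabilizer G s₀)) ∧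
      (badSet z (U i)).Nonempty}.ncard
    ≤ (if 4 ∣ g then (out N (quart s₀ z)).ncard else 0) + (out N (sext s₀ z)).ncard

/-- (SubCN) Spaces of dimension `2`, dihedral subfields.

Proof. Copy of `pSubC2` (`Sharp/SubC2.lean`; use `pKerDih`, proven): `i ↦ kerSub G (U i)` is injective
with values in `dih 4 ∪ dih 6`. New: `¬ N ≤ kerSub G (U i)`, as in (SubAN). -/
def StSubCN : Prop := ∀ (S G : Type) [Fintype S] [Group G] [Finite G] [MulAction G S]
  [IsPretransitive G S] (s₀ : S) (z : G) (_ : ∀ γ : G, γ * z = z * γ)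
  (_ : ∀ s : S, z • z • s = s) (N : Subgroup G) (n : ℕ)
  (U : Fin n → Submodule ℚ (S → ℚ)),
  (∀ i, IsIrr G (U i) ∧ IsOddSp z (U i)) → (∀ i j, i ≠ j → ¬ IsoF G (U i) (U j)) →
  (∀ i, ¬ U i ≤ cosetC s₀ N) →
  {i : Fin n | finrank ℚ (U i) = 2 ∧ finrank ℚ (endF G (U i)) = 1 ∧
      finrank ℚ ↥(U i ⊓ invF ℚ (stabilizer G s₀)) = 2}.ncard
    ≤ (out N (dih 4 s₀ z)).ncard + (out N (dih 6 s₀ z)).ncard

/-- (BigOut) A function of small support, not constant on the cosets of `N`, generates a large space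
modulo the functions constant on the cosets of `N`.

Proof. Let `C = cosetC s₀ N` (stable: `cosetC_stab`), `R₁ = R ⊓ C`, `R₂` the set of the `f ∈ R` with
`∑ s, f s * c s = 0` for all `c ∈ R₁`. `R₂` is stable, `R₁ ⊓ R₂ = ⊥` (positive definite), `R = R₁ ⊔ R₂`
(orthogonal projection; copy from the proof of `pIrrIn` in `Wc/IrrIn.lean`, or `perp`, `isCompl_perp` in
`Frob/IrrB.lean`). So `R₂ ⊓ C ≤ R₁ ⊓ R₂ = ⊥`, and `R₂ ≠ ⊥` because `v ∈ R`, `v ∉ C`.
 Dimension. There are `γ, γ'` with `γ⁻¹ γ' ∈ N` and `v (γ s₀) ≠ v (γ' s₀)`. Let `w s = v (γ • s)`; `w ∈ R`,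
the same number of nonzero values, and `w` is not constant on the orbit `F = {ν • s₀ | ν ∈ N}`, in
particular not zero on `F`. `|F| * N.index = |S|` (`stabilizer ≤ N`: `|F| = |N| / |stabilizer|`, orbit
stabilizer for `N` and for `G`). Let `W` be the space of the restrictions to `F` of the functions in
`R`, stable under `N` (acting transitively on `F`). By `pSupp` (`Full/Supp.lean`) for `N` acting on the
subtype `F`: `|F| ≤ finrank W * (4 k)`. `W` is the sum of the restrictions of `R₁`, which are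
constant functions (dimension at most `1`), and those of `R₂`: `finrank W ≤ 1 + finrank R₂ ≤
2 * finrank R₂`. So `|S| = N.index * |F| ≤ N.index * (8 k * finrank R₂)`. -/
def StBigOut : Prop := ∀ (S G : Type) [Fintype S] [Group G] [Finite G] [MulAction G S]
  [IsPretransitive G S] (s₀ : S) (N : Subgroup G) (R : Submodule ℚ (S → ℚ)) (v : S → ℚ) (k : ℕ),
  stabilizer G s₀ ≤ N → IsStab G R → v ∈ R → v ∉ cosetC s₀ N → {s : S | v s ≠ 0}.ncard ≤ 4 * k →
  ∃ R₂ : Submodule ℚ (S → ℚ), R₂ ≤ R ∧ IsStab G R₂ ∧ R₂ ⊓ cosetC s₀ N = ⊥ ∧ R₂ ≠ ⊥ ∧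
    Fintype.card S ≤ N.index * (8 * k * finrank ℚ R₂)

/-- (SpOut) The spaces attached to quartic and sextic subfields not contained in `M`.

Proof. Suppose `sp s₀ z H ≤ cosetC s₀ N`. Let `K = H0 G s₀ (sp s₀ z H)` (`Sharp/SpecU.lean`: the `κ` with
`f (γ • κ • s₀) = f (γ • s₀)` for all `f ∈ sp`, `γ`). `H ≤ K` (second condition in the definition of
`sp`, for `γ` and `γ κ`) and `N ≤ K` (by assumption, the same). `z ∉ K`: otherwise `f (γ s₀) =
f (γ z s₀) = f (z γ s₀) = - f (γ s₀)` for all `f ∈ sp`, so `sp = ⊥`, but its dimension is `2` (`pSpDim`,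
`Sharp/SpDim.lean`). As `¬ N ≤ H`, `K ≠ H`, so `K.index` is a proper divisor of `H.index`
(`Subgroup.relIndex_mul_index`). `K.index ≠ 1` as `z ∉ K`. `K.index` is not `3`: `z ∉ K`, `z` central and
`z ^ 2 ∈ K` (`z ^ 2` fixes `s₀`, `stabilizer ≤ H ≤ K`), so `K` has index `2` in `K ⊔ zpowers z`, and the
index of `K` is even. If `H ∈ quart` then `H.index = 4`, `K.index = 2`, and `z ∈ K` by the last condition
in the definition of `quart`, a contradiction. If `H ∈ sext`, `H.index = 6`, `K.index = 2`. Let `f ∈ sp`: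
`f` is constant on `{γ s₀ | γ ∈ K}`, with value `c`, and the third condition in the definition of `sp`
(`H' = K`) gives `c * |{γ s₀ | γ ∈ K}| = 0`, so `c = 0`, `f s₀ = 0`; the same for the translates of `f`
(`sp` is stable, `pSpDim`), so `f = 0` by transitivity; `sp = ⊥`, a contradiction. -/
def StSpOut : Prop := ∀ (S G : Type) [Fintype S] [Group G] [Finite G] [MulAction G S]
  [IsPretransitive G S] (s₀ : S) (z : G) (_ : ∀ γ : G, γ * z = z * γ)
  (_ : ∀ s : S, z • z • s = s) (N H : Subgroup G), H ∈ quart s₀ z ∪ sext s₀ z → ¬ N ≤ H →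
  ¬ sp s₀ z H ≤ cosetC s₀ N

/-- (RelN) Sign functions orthogonal to a stable space.

Proof. Choose `f ∈ U`, `f ∉ cosetC s₀ N`, multiply it by a positive integer `d` to make it integer
valued, `d * f s = v s`; `v` is odd, and `∑ s, v s * e (γ s) = ∑ s, v (γ⁻¹ s) * e s = 0` as `U` is stable.
`v` is not constant on the cosets of `N` because `f` is not. (Compare `pRel` in `Sharp/Rel.lean`.) -/
def StRelN : Prop := ∀ (S G : Type) [Fintype S] [Group G] [Finite G] [MulAction G S]
  (s₀ : S) (z : G) (N : Subgroup G) (U : Submodule ℚ (S → ℚ)), ¬ U ≤ cosetC s₀ N →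
  IsStab G U → IsOddSp z U → ∀ e : S → ℤ, IsSgn z e → Perp e U → e ∈ relN s₀ z N

/-- (LowSpN) The lower bound from quartic and sextic subfields (from `StSpOut`, `StRelN`).

Proof. Copy of `pLowSp` (`Sharp/LowSp.lean`; use the proven `pUnion`, `qSpLow` or `pSpLow`, `pSpDim`,
`qSpSep` or `pSpSep`, `pLocal`, see `Sharp/All.lean`), with the sets `out N (quart s₀ z)` and
`out N (sext s₀ z)` for `𝓗`; at the end use `StSpOut` and `StRelN` to see that all `A H` are contained in
`relN s₀ z N`. You may assume the statements `StUnion`, `StSpLow`, `StSpDim`, `StSpSep`, `StLocal` as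
hypotheses of the theorem, as in `Sharp/LowSp.lean`. -/
def StLowSpN : Prop := ∃ c : ℝ, 0 < c ∧ ∀ (S G : Type) [Fintype S] [Group G] [Finite G]
  [MulAction G S] [IsPretransitive G S] (s₀ : S) (z : G) (_ : ∀ γ : G, γ * z = z * γ)
  (_ : ∀ s : S, z • z • s = s) (_ : ∀ s : S, z • s ≠ s) (g : ℕ) (_ : Fintype.card S = 2 * g)
  (_ : 1 ≤ g) (N : Subgroup G),
  (4 ∣ g → c * min 1 (((out N (quart s₀ z)).ncard : ℝ) / g) * 2 ^ g
    ≤ ((relN s₀ z N : Set (S → ℤ)).ncard : ℝ)) ∧
  c * min 1 (((out N (sext s₀ z)).ncard : ℝ) / g) * 2 ^ g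
    ≤ ((relN s₀ z N : Set (S → ℤ)).ncard : ℝ)

/-- (DihOut) Singular matrices and relations constant on the cosets of `N` (from `StLocal`).

Proof. Choose `ν ∈ N`, `ν ∉ H`, so `R ν ≠ 1`. All `Φ s` are invertible over `ℚ` (`Φ (γ s₁) = R γ` for the
point `s₁` with `Φ s₁ = 1`, `R γ R γ⁻¹ = 1`). Let `e ∈ small M X.card`, `B = ∑ s, e s • Φ s`, `det B = 0`,
`B λ = 0` with an integer vector `λ ≠ 0` (`Matrix.exists_mulVec_eq_zero_iff`). For `i : Fin 2` let
`v i s = (Φ s λ) i`; it is odd, and `∑ s, v i s * e (γ s) = (R γ⁻¹ B λ) i = 0` (see `pRel` (2) in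
`Sharp/Rel.lean`). If `e ∉ relN s₀ z N` then `v 0`, `v 1` are constant on the cosets of `N`; with
`γ = 1`, `γ' = ν`: `R ν Φ s₀ λ = Φ s₀ λ`. So `λ ∈ L = ker ((R ν - 1) Φ s₀)`, a rational space of dimension at
most `1` as `(R ν - 1) Φ s₀ ≠ 0`. If there is such an `e` then `L = ℚ λ₀`, `λ₀ ≠ 0`, and `B λ₀ = 0` for all such
`e`. Let `U = {s ↦ ∑ i, a i * (Φ s λ₀) i | a : Fin 2 → ℚ}`; it is stable (`Φ (γ s) = R γ Φ s`), odd, of
dimension `2` (if `∑ i, a i * (Φ s λ₀) i = tr (Φ s (λ₀ aᵀ)) = 0` for all `s` then `λ₀ aᵀ = 0`: scale to an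
integer matrix not divisible by a prime `p ∤ 2 n` and use `indep`; see the proof of `pDihPair` in
`Sharp/DihPair.lean`, `pIndepPair`), and `∑ s, f s * e s = 0` for all `f ∈ U` and all these `e`. Use
`StLocal` for `d = 2` and one of these `e` as `e₀`; `X.card ^ (- 1) = 1 / X.card`. -/
def StDihOut : Prop := ∃ C : ℝ, 0 < C ∧ ∀ (n : ℕ) [NeZero n] (S G : Type) [Fintype S] [Group G]
  [Finite G] [MulAction G S] [IsPretransitive G S] (s₀ : S) (z : G) (_ : ∀ s : S, z • z • s = s)
  (X : Finset S) (_ : ∀ s, s ∈ X ↔ z • s ∉ X) (_ : 1 ≤ X.card) (N H : Subgroup G)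
  (M : MatSys S G z 2 (2 * n)), (∀ γ, M.R γ = 1 ↔ γ ∈ H) → ¬ N ≤ H →
  ((small M X.card \ relN s₀ z N).ncard : ℝ) ≤ C / X.card * 2 ^ X.card

/-- (LowDihN) The lower bound from dihedral subfields (from `StDihOut`).

Proof. Copy of `pLowDih` (`Sharp/LowDih.lean`) with `ι = out N (dih n s₀ z)` and
`A H = small (M H) g ∩ relN s₀ z N`. By `StDihLow` and `StDihOut`
`|A H| ≥ c₁ (log g / g) 2 ^ g - (C / g) 2 ^ g ≥ (c₁ / 2) (log g / g) 2 ^ g` if `log g ≥ 2 C / c₁`, true for
large `g`. The intersections are smaller than those of the sets `small`. You may assume `StUnion`,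
`StDihSys`, `StDihLow`, `StDihPair` as hypotheses of the theorem, as in `Sharp/LowDih.lean`. -/
def StLowDihN : Prop := ∃ c : ℝ, 0 < c ∧ ∃ g₀ : ℕ, ∀ (n : ℕ) [NeZero n], n = 4 ∨ n = 6 →
  ∀ (S G : Type) [Fintype S] [Group G] [Finite G] [MulAction G S] [IsPretransitive G S] (s₀ : S)
  (z : G) (_ : ∀ γ : G, γ * z = z * γ) (_ : ∀ s : S, z • z • s = s) (_ : ∀ s : S, z • s ≠ s)
  (g : ℕ) (_ : Fintype.card S = 2 * g) (_ : g₀ ≤ g) (N : Subgroup G),
  c * min 1 (((out N (dih n s₀ z)).ncard : ℝ) * Real.log g / g) * 2 ^ g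
    ≤ ((relN s₀ z N : Set (S → ℤ)).ncard : ℝ)

section fields

variable (E : Type) [Field E] [NumberField E] [IsCMField E] (M : IntermediateField ℚ E)

/-- The number of nonreal quadratic subfields not contained in `M`. -/
noncomputable def numQuad : ℕ :=
  {K : IntermediateField ℚ E | (finrank ℚ K = 2 ∧ ∃ x ∈ K, IsCMField.complexConj E x ≠ x) ∧
    ¬ K ≤ M}.ncard

/-- The number of nonreal quartic subfields without a nonreal quadratic subfield, not contained in
`M`. -/
noncomputable def numQuart : ℕ :=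
  {K : IntermediateField ℚ E | (finrank ℚ K = 4 ∧ (∃ x ∈ K, IsCMField.complexConj E x ≠ x) ∧
    ∀ K' : IntermediateField ℚ E, K' ≤ K → finrank ℚ K' = 2 →
      ∀ x ∈ K', IsCMField.complexConj E x = x) ∧ ¬ K ≤ M}.ncard

/-- The number of nonreal sextic subfields with a nonreal quadratic subfield, not contained in
`M`. -/
noncomputable def numSext : ℕ :=
  {K : IntermediateField ℚ E | (finrank ℚ K = 6 ∧ (∃ x ∈ K, IsCMField.complexConj E x ≠ x) ∧
    ∃ K' : IntermediateField ℚ E, K' ≤ K ∧ finrank ℚ K' = 2 ∧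
      ∃ x ∈ K', IsCMField.complexConj E x ≠ x) ∧ ¬ K ≤ M}.ncard

/-- The number of nonreal subfields which are Galois over `ℚ` with a dihedral group of order
`2 n`, not contained in `M`. -/
noncomputable def numDih (n : ℕ) : ℕ :=
  {K : IntermediateField ℚ E | ((∃ x ∈ K, IsCMField.complexConj E x ≠ x) ∧ IsGalois ℚ K ∧
    Nonempty ((K ≃ₐ[ℚ] K) ≃* DihedralGroup n)) ∧ ¬ K ≤ M}.ncard

/-- The rate of the CM types with Tate classes which do not come from `M`. -/
noncomputable def rate (g : ℕ) : ℝ :=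
  (if 2 ∣ g then (numQuad E M : ℝ) / Real.sqrt g else 0)
    + ((if 4 ∣ g then (numQuart E M : ℝ) else 0) + numSext E M) / g
    + ((numDih E M 4 : ℝ) + numDih E M 6) * Real.log g / g

end fields

/-- A relation of `Φ` which is not constant on the fibres of `Emb E → Emb M`. -/
def HasRel {E : Type} [Field E] [NumberField E] [IsCMField E] (M : IntermediateField ℚ E)
    (Φ : Set (Emb E)) : Prop :=
  ∃ v ∈ relLattice Φ, ∃ φ ψ : Emb E, (∀ x ∈ M, φ x = ψ x) ∧ v φ ≠ v ψ

/-- (FieldN) Subfields and subgroups.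

Proof. (1) Copy of `pFieldEq` (`Sharp/FieldEq.lean`; use `pCorrA`, `pCorrG`, proven; copy the private
lemma `fieldEq_count`): the bijection `H ↦ fixAt φ₀ H` and all the translations of conditions are as
there; new: `¬ fixAt φ₀ H ≤ fixAt φ₀ N ↔ ¬ N ≤ H` (part (2) of `StCorrA`).
 (2) `→`: `(γ' • φ₀) x = (γ • (ν • φ₀)) x` with `ν = γ⁻¹ γ' ∈ N`; `(ν • φ₀) x = φ₀ x` by the definition of
`fixAt`, and `γ` is induced by a `τ` in `AbsGal` (`exists_of_galGroup`, `galEmb` is composition).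
`←`: apply the inverse of `τ`: `(ν • φ₀) x = φ₀ x` for all `x ∈ fixAt φ₀ N`, and `ν ∈ N` by the private lemma
`corrA_mem_of_agree` in `Sharp/CorrA.lean` (copy it), compare `Wc/Restr.lean`. -/
def StFieldN : Prop := ∀ (E : Type) [Field E] [NumberField E] [IsCMField E] (φ₀ : Emb E)
  (z : galGroup E) (_ : ∀ φ : Emb E, z • φ = conjEmb φ) (N : Subgroup (galGroup E)),
  stabilizer (galGroup E) φ₀ ≤ N →
  (numQuad E (fixAt φ₀ N) = (out N (quad φ₀ z)).ncard ∧
   numQuart E (fixAt φ₀ N) = (out N (quart φ₀ z)).ncard ∧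
   numSext E (fixAt φ₀ N) = (out N (sext φ₀ z)).ncard ∧
   ∀ n : ℕ, numDih E (fixAt φ₀ N) n = (out N (dih n φ₀ z)).ncard) ∧
  ∀ γ γ' : galGroup E, γ⁻¹ * γ' ∈ N ↔ ∀ x ∈ fixAt φ₀ N, (γ • φ₀ : Emb E) x = (γ' • φ₀ : Emb E) x

/-- (TransN) From sign functions to primitive CM types (from part (2) of `StFieldN`).

Proof. Copy of `pTransfer` (`Sharp/Transfer.lean`). CM types correspond to sign functions `e` by
`Φ = {φ | e φ = 1}`; a relation `v` for `e` is in `relLattice Φ`; if `γ⁻¹ γ' ∈ N` and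
`v (γ • φ₀) ≠ v (γ' • φ₀)` then `φ = γ • φ₀`, `ψ = γ' • φ₀` agree on `fixAt φ₀ N` by part (2) of `StFieldN`. -/
def StTransN : Prop := ∀ (E : Type) [Field E] [NumberField E] [IsCMField E] (g : ℕ)
  (_ : finrank ℚ E = 2 * g) (φ₀ : Emb E) (z : galGroup E) (_ : ∀ φ : Emb E, z • φ = conjEmb φ)
  (N : Subgroup (galGroup E)), stabilizer (galGroup E) φ₀ ≤ N →
  (relN φ₀ z N : Set (Emb E → ℤ)).ncard ≤
    {Φ : Set (Emb E) | IsCMType Φ ∧ OddGal.Primitive Φ ∧ HasRel (fixAt φ₀ N) Φ}.ncard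
      + 2 * g * 2 ^ (g / 2)

/-- (LowQuadN) The lower bound from quadratic subfields.

Proof. Copy of `lowerMain` (`All/LowerMain.lean`, copy also its private lemmas), with `ι` the type of
the nonreal quadratic `K` with `¬ K ≤ M`. New: the relation `chiK φ₀ K` is not constant on the fibres of
`Emb E → Emb M`: choose `x ∈ K`, `x ∉ M`. There is an embedding `φ` which agrees with `φ₀` on `M` and
`φ x ≠ φ₀ x` (otherwise `φ₀ x` would be fixed by all automorphisms of `AlgebraicClosure ℚ` which fix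
`φ₀(M)` pointwise, so `φ₀ x ∈ φ₀(M)`, `x ∈ M`; this argument is in the proof of `pCorrA`,
`Sharp/CorrA.lean`: or use `pCorrA`: `M = fixAt φ₀ N`, `K = fixAt φ₀ H`, `¬ N ≤ H`, take `ν ∈ N`, `ν ∉ H`,
`φ = ν • φ₀`). Then `chiK φ₀ K φ = - 1` and `chiK φ₀ K φ₀ = 1`. -/
def StLowQuadN : Prop := ∀ (E : Type) [Field E] [NumberField E] [IsCMField E] (g : ℕ),
  finrank ℚ E = 2 * g → Even g → 40 ≤ g → ∀ M : IntermediateField ℚ E,
  (1 / 12 : ℝ) * min 1 (numQuad E M / Real.sqrt g) * {Φ : Set (Emb E) | IsCMType Φ}.ncard ≤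
    {Φ : Set (Emb E) | IsCMType Φ ∧ OddGal.Primitive Φ ∧ HasRel M Φ}.ncard

/-- (AlgK) A Tate class which is not generated by Tate classes of codimension `1` and those fixed by
the norm one torus of `E / M` gives a relation.

Proof. Copy of `pAlg` (`Wc/Alg.lean`). There it is shown by induction on `i` that for each list `l`
without repetition, of length `2 i`, with all weights equal to `i`, `mono F l` is in `normAlg`. Here
show: `mono F l` is in `normAlg` or there is a `v` as in the conclusion. If `l` has a pair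
`q.1 = conjEmb p.1` use the induction hypothesis (its `v` has at most `4 i ≤ 4 (i + 1)` nonzero values).
Otherwise let `v φ = m φ - m (conjEmb φ)`, `m φ = (l.map Prod.fst).count φ`, as in `alg_mult`; `v` is in
`relLattice Φ`, it vanishes outside the `φ` such that `φ` or `conjEmb φ` is in `l.map Prod.fst`, at most
`2 * (2 (i + 1))` embeddings, and if it is constant on the fibres then `mono F l` is in `normAlg` as
there. Finally, if no such `v` exists then all these `mono F l` are in `normAlg`, and `x` too, by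
`coe_eq_sum_monomials`. -/
def StAlgK : Prop := ∀ (E : Type) [Field E] [NumberField E] [IsCMField E] (Φ : Set (Emb E))
  (_ : IsCMType Φ) (M : IntermediateField ℚ E)
  (Γ : Type) [Group Γ] [TopologicalSpace Γ] (F : Type) [Field F] (ρ : CMGaloisRep Φ Γ F)
  (n i : ℕ) (x : ExteriorAlgebra F (H1 E n F)),
  TateClass (ρ.onH1 n) ρ.χ i x → x ∉ normAlg M n (ρ.onH1 n) ρ.χ →
  ∃ v ∈ relLattice Φ, (∃ φ ψ : Emb E, (∀ y ∈ M, φ y = ψ y) ∧ v φ ≠ v ψ) ∧
    {φ : Emb E | v φ ≠ 0}.ncard ≤ 4 * i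

/-- (NotIn) A relation which is not constant on the fibres gives a Tate class which is not
generated.

Proof. Let `m φ = (v φ).toNat`, `n = ∑ φ, m φ`, `s` the set of the `(φ, a)` with `a < m φ`, and `x` the
monomial of `s`, as in `exists_exotic_of_relation` (`RelExotic.lean`), where it is shown that `x` is a
Tate class. Let `a : Emb E → ℤ` be `δ_φ - δ_ψ - δ_(conj φ) + δ_(conj ψ)` with `φ, ψ` as in `HasRel`:
`a (conj θ) = - a θ`, the sum of `a` over each fibre `{θ | ∀ y ∈ M, θ y = θ₀ y}` is `0` (`φ`, `ψ` are in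
the same fibre, also `conj φ`, `conj ψ`), and `∑ a θ * v θ = 2 (v φ - v ψ) ≠ 0`. Let `t θ = 2 ^ (a θ)` in
`F` (`zpow`). The algebra automorphism `D = ExteriorAlgebra.map (diag t)` fixes all Tate classes of
codimension `1` (as `Φ` is primitive they are combinations of products of pairs `(θ, b)`,
`(conj θ, b')`; this is shown in `exists_exotic_of_relation` or its lemmas, and `t θ * t (conj θ) = 1`),
and all NormFixed classes (the products of `t` over the fibres are `1`), hence all of `normAlg`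
(the fixed points of an algebra homomorphism are a subalgebra; `Algebra.adjoin_le`). But
`D x = (∏ θ, t θ ^ m θ) x = 2 ^ (∑ a θ * m θ) x`, and `∑ a θ * m θ = (1 / 2) ∑ a θ * v θ = v φ - v ψ ≠ 0`
(`v θ = m θ - m (conj θ)`, `a` odd), so `D x ≠ x` because `x ≠ 0` and `F` has characteristic `0`. -/
def StNotIn : Prop := ∀ (E : Type) [Field E] [NumberField E] [IsCMField E] (Φ : Set (Emb E))
  (_ : IsCMType Φ) (_ : OddGal.Primitive Φ) (M : IntermediateField ℚ E) (_ : HasRel M Φ)
  (Γ : Type) [Group Γ] [TopologicalSpace Γ] (F : Type) [Field F] [CharZero F]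
  (ρ : CMGaloisRep Φ Γ F),
  ∃ (n i : ℕ) (x : ExteriorAlgebra F (H1 E n F)),
    TateClass (ρ.onH1 n) ρ.χ i x ∧ x ∉ normAlg M n (ρ.onH1 n) ρ.χ

/-- (Bot) For `M = ℚ` nothing is added to the algebra generated by the Tate classes of
codimension `1`.

Proof. `divisorAlg ≤ normAlg` is clear (`Algebra.adjoin_mono`). For the other inclusion let `y` be a Tate
class with some `i` and `NormFixed ⊥ y`; all embeddings agree on `⊥`, so `y` is fixed by
`D_t = ExteriorAlgebra.map (diag t)` for all `t` with `∏ φ, t φ = 1`. Let `B = n + 1`, number the embeddings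
`φ_0, …, φ_d`, `a (φ_j) = B ^ j` for `j < d` and `a (φ_d) = - ∑_{j < d} B ^ j`, `t φ = 2 ^ (a φ)`, `D = D_t`. By
`coe_eq_sum_monomials` `y` is in the span of the `mono F l` for lists `l` without repetition of length
`2 i` with all weights `i`; `D (mono F l) = 2 ^ (w l) mono F l`, `w l = ∑ a φ * m φ` with
`m φ = (l.map Prod.fst).count φ ≤ n`. If `w l = 0` then `∑_{j < d} B ^ j (m (φ_j) - m (φ_d)) = 0` with
`|m (φ_j) - m (φ_d)| < B`, so all `m φ` are equal (uniqueness of such expansions, modulo `B`,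
induction). (Another choice: use all `t` of the form `2` at `φ`, `1 / 2` at `ψ`, one pair after the
other.) Then `mono F l` is a product (up to sign) of pairs `ev p * ev q`, `q.1 = conjEmb p.1`, so it is in
`divisorAlg` (peel off pairs as in the proof of `pAlg`, `pair_mem_divisorAlgebra`). Since `y` is an
eigenvector of `D` for the eigenvalue `1` and a sum of eigenvectors, it is the sum of the parts with
`w l = 0` (`Module.End.eigenspaces_iSupIndep`, or apply to `y` a polynomial in `D` which is `1` at `1` and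
`0` at the other finitely many eigenvalues; `2 ^ w = 1` iff `w = 0` in characteristic `0`). -/
def StBot : Prop := ∀ (E : Type) [Field E] [NumberField E] [IsCMField E] (Φ : Set (Emb E))
  (_ : IsCMType Φ) (Γ : Type) [Group Γ] [TopologicalSpace Γ] (F : Type) [Field F] [CharZero F]
  (ρ : CMGaloisRep Φ Γ F) (n : ℕ),
  normAlg (⊥ : IntermediateField ℚ E) n (ρ.onH1 n) ρ.χ = divisorAlg (ρ.onH1 n) ρ.χ

end Pool.Agent.Lib.MP_640417_ag.Sm
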