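import Pool.Agent.Lib.MP_640417_ag.Cd.Count
import Pool.Agent.Lib.MP_640417_ag.Sm.SumBadN

/-!
# Sign functions with relations of small support, not constant on the cosets of `N`
-/

namespace Pool.Agent.Lib.MP_640417_ag.Sm

open Module Finset MulAction Pool.Agent.Lib.MP_640417_ag Pool.Agent.Lib.MP_640417_ag.Far
  Pool.Agent.Lib.MP_640417_ag.Full Pool.Agent.Lib.MP_640417_ag.Sharp
  Pool.Agent.Lib.MP_640417_ag.Wc Pool.Agent.Lib.MP_640417_ag.Cd

/-- **Relations of small support.** -/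
theorem countN (hMult : StMult) (hMod : StMod) (hBig : StBig) (hTwo : StTwo)
    (hSplit : StSplit) (hSum : StSum) (hMat : StMat) (hA : StSubAN)
    (hPar1 : StPar1) (hB2 : StSubBN) (hC2 : StSubCN) (hLog : StTwoLog) (hIn : StIrrIn)
    (hBigOut : StBigOut) :
    ∃ C : ℝ, 0 < C ∧
    ∀ (S G : Type) [Fintype S] [Group G] [Finite G] [MulAction G S] [IsPretransitive G S]
      (s₀ : S) (z : G) (_ : ∀ γ : G, γ * z = z * γ) (_ : ∀ s : S, z • z • s = s)
      (_ : ∀ s : S, z • s ≠ s) (g : ℕ) (_ : Fintype.card S = 2 * g) (_ : 2 ≤ g)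
      (N : Subgroup G) (_ : stabilizer G s₀ ≤ N) (k : ℕ),
      ((relNK s₀ z N k : Set (S → ℤ)).ncard : ℝ)
      ≤ C * (min 1 ((k : ℝ) * N.index / (2 * g)) * (((if 2 ∣ g then (out N (quad s₀ z)).ncard else 0 : ℕ) : ℝ)
            / Real.sqrt g
        + (((if 4 ∣ g then (out N (quart s₀ z)).ncard else 0) + (out N (sext s₀ z)).ncard : ℕ) : ℝ) / g
        + (((out N (dih 4 s₀ z)).ncard + (out N (dih 6 s₀ z)).ncard : ℕ) : ℝ) * Real.log (g + 1) / g)
        + Real.log g ^ (-(1 / 4) : ℝ)) * 2 ^ g := by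
  obtain ⟨C₁, hC₁, hsum⟩ := sum_bad hMult hMod hBig hTwo hSplit hSum hMat hA hPar1 hB2 hC2 hLog
  obtain ⟨C₂, hC₂, hfam⟩ := family_bound hMult hMod hBig hTwo hSplit hSum
  refine ⟨32 * C₁ + C₂, by positivity, ?_⟩
  intro S G _ _ _ _ _ s₀ z hz hzz hzne g hcard hg2 N hN k
  classical
  obtain ⟨n, U, hU, hiso, hout, hUex⟩ := exists_types_out S G s₀ z (cosetC s₀ N)
  have hfin : ∀ i, (badSet z (U i)).Finite := fun i => finite_isSgn z _
  have hg0 : (0 : ℝ) < g := by
    have : 0 < g := by omega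
    exact_mod_cast this
  have hlog : 0 ≤ Real.log g := Real.log_natCast_nonneg g
  have hlog1 : 0 ≤ Real.log (g + 1) := Real.log_nonneg (by linarith)
  -- the large types
  let ι : Type := {i : Fin n // 3 ≤ finrank ℚ (U i)}
  let n₁ : ℕ := Fintype.card ι
  let en : Fin n₁ ≃ ι := (Fintype.equivFin ι).symm
  let U₁ : Fin n₁ → Submodule ℚ (S → ℚ) := fun j => U (en j).1
  have hU₁ : ∀ j, IsIrr G (U₁ j) ∧ IsOddSp z (U₁ j) := fun j => hU _
  have hiso₁ : ∀ i j, i ≠ j → ¬ IsoF G (U₁ i) (U₁ j) := by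
    intro i j hij
    apply hiso
    intro h
    exact hij (en.injective (Subtype.ext h))
  have h3 : ∀ j, 3 ≤ finrank ℚ (U₁ j) := fun j => (en j).2
  have h4 := hfam S G s₀ z hz hzz hzne g hcard hg2 n₁ U₁ hU₁ hiso₁
  have hn1 : {j : Fin n₁ | finrank ℚ (U₁ j) = 1}.ncard = 0 := by
    have h5 : {j : Fin n₁ | finrank ℚ (U₁ j) = 1} = ∅ := by
      ext j
      simp only [Set.mem_ofPred_eq, Set.mem_empty_iff_false, iff_false]
      have := h3 j
      omega
    rw [h5]
    simp
  have hn2 : {j : Fin n₁ | finrank ℚ (U₁ j) = 2 ∧ finrank ℚ (endF G (U₁ j)) =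
      finrank ℚ ↥(U₁ j ⊓ invF ℚ (stabilizer G s₀))}.ncard = 0 := by
    have h5 : {j : Fin n₁ | finrank ℚ (U₁ j) = 2 ∧ finrank ℚ (endF G (U₁ j)) =
        finrank ℚ ↥(U₁ j ⊓ invF ℚ (stabilizer G s₀))} = ∅ := by
      ext j
      simp only [Set.mem_ofPred_eq, Set.mem_empty_iff_false, iff_false]
      rintro ⟨h6, -⟩
      have := h3 j
      omega
    rw [h5]
    simp
  have hn3 : {j : Fin n₁ | finrank ℚ (U₁ j) = 2 ∧ finrank ℚ (endF G (U₁ j)) = 1 ∧
      finrank ℚ ↥(U₁ j ⊓ invF ℚ (stabilizer G s₀)) = 2}.ncard = 0 := by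
    have h5 : {j : Fin n₁ | finrank ℚ (U₁ j) = 2 ∧ finrank ℚ (endF G (U₁ j)) = 1 ∧
        finrank ℚ ↥(U₁ j ⊓ invF ℚ (stabilizer G s₀)) = 2} = ∅ := by
      ext j
      simp only [Set.mem_ofPred_eq, Set.mem_empty_iff_false, iff_false]
      rintro ⟨h6, -⟩
      have := h3 j
      omega
    rw [h5]
    simp
  rw [hn1, hn2, hn3] at h4
  simp only [Nat.cast_zero, zero_div, zero_mul, zero_add] at h4
  -- the sum over all types
  have h5 := hsum S G s₀ z hz hzz hzne g hcard hg2 N n U hU hiso hout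
  set r : ℝ := ((if 2 ∣ g then (out N (quad s₀ z)).ncard else 0 : ℕ) : ℝ) / Real.sqrt g
        + (((if 4 ∣ g then (out N (quart s₀ z)).ncard else 0) + (out N (sext s₀ z)).ncard : ℕ) : ℝ) / g
        + (((out N (dih 4 s₀ z)).ncard + (out N (dih 6 s₀ z)).ncard : ℕ) : ℝ) * Real.log (g + 1) / g with hr
  have hr0 : 0 ≤ r := by
    rw [hr]
    have h1 : 0 ≤ ((if 2 ∣ g then (out N (quad s₀ z)).ncard else 0 : ℕ) : ℝ) / Real.sqrt g := by
      positivity
    have h2 : 0 ≤ (((if 4 ∣ g then (out N (quart s₀ z)).ncard else 0) + (out N (sext s₀ z)).ncard : ℕ) : ℝ)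
      / g := by positivity
    have h3 : 0 ≤ (((out N (dih 4 s₀ z)).ncard + (out N (dih 6 s₀ z)).ncard : ℕ) : ℝ) * Real.log (g + 1) / g := by
      positivity
    linarith
  set l : ℝ := Real.log g ^ (-(1 / 4) : ℝ) with hl
  have hl0 : 0 ≤ l := Real.rpow_nonneg hlog _
  have h2g : (0 : ℝ) < 2 ^ g := by positivity
  set T : Set (S → ℤ) := relNK s₀ z N k with hT
  set B : Set (S → ℤ) := ⋃ j ∈ (Finset.univ : Finset (Fin n₁)), badSet z (U₁ j) with hB
  have hTfin : T.Finite := finite_isSgn z _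
  have hBfin : B.Finite := Set.Finite.biUnion (Set.toFinite _) (fun j _ => finite_isSgn z _)
  have hBcard : (B.ncard : ℝ) ≤ C₂ * l * 2 ^ g := by
    refine le_trans ?_ h4
    have h6 : B.ncard ≤ ∑ j, (badSet z (U₁ j)).ncard := Finset.set_ncard_biUnion_le _ _
    exact_mod_cast h6
  -- the number of bad types
  let J : (S → ℤ) → Finset (Fin n) := fun e => Finset.univ.filter (fun i => e ∈ badSet z (U i))
  set μ : ℝ := min 1 ((k : ℝ) * N.index / (2 * g)) with hμ
  have hμ0 : 0 ≤ μ := le_min zero_le_one (by positivity)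
  have hkey : ∀ e ∈ T \ B, (1 : ℝ) ≤ 32 * μ * (J e).card := by
    rintro e ⟨⟨he, v, hv, ⟨γ₁, γ₂, hγ, hne⟩, hsupp⟩, heB⟩
    have hvR : (fun s => (v s : ℚ)) ∈ relR z e := by
      refine ⟨fun s => ?_, fun δ => ?_⟩
      · change ((v (z • s) : ℤ) : ℚ) = - ((v s : ℤ) : ℚ)
        rw [hv.1 s]
        push_cast
        rfl
      · change ∑ s, ((v s : ℤ) : ℚ) * ((e (δ • s) : ℤ) : ℚ) = 0
        have := hv.2 δ
        exact_mod_cast this
    have hvC : (fun s => (v s : ℚ)) ∉ cosetC s₀ N := by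
      intro h
      have h1 : ((v (γ₁ • s₀) : ℤ) : ℚ) = ((v (γ₂ • s₀) : ℤ) : ℚ) := h γ₁ γ₂ hγ
      apply hne
      exact_mod_cast h1
    have hsupp' : {s : S | ((v s : ℤ) : ℚ) ≠ 0}.ncard ≤ 4 * k := by
      have : {s : S | ((v s : ℤ) : ℚ) ≠ 0} = {s : S | v s ≠ 0} := by
        ext s
        simp
      rw [this]
      exact hsupp
    obtain ⟨R₂, hR1, hR2, hR3, hR4, hR5⟩ := hBigOut S G s₀ N (relR z e) _ k hN
      (relR_stab z hz e) hvR hvC hsupp'
    -- the space is contained in the sum of the isotypic spaces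
    have hle : R₂ ≤ (J e).sup (fun i => isoSpan G (U i)) := by
      by_contra hcon
      obtain ⟨U', hU'1, hU'2, hU'3⟩ := hIn S G R₂ _ hR2
        (stab_sup (J e) (fun i => isoSpan G (U i)) (fun i => isoSpan_stab _ (hU i).1.2.1)) hcon
      have hodd : IsOddSp z U' := fun f hf s => (hR1 (hU'2 hf)).1 s
      have hnC : ¬ U' ≤ cosetC s₀ N := by
        intro h
        apply hU'1.1
        rw [eq_bot_iff, ← hR3]
        exact le_inf hU'2 h
      obtain ⟨i, θ, hθ⟩ := hUex U' hU'1 hodd hnC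
      have hbad : e ∈ badSet z (U i) := by
        refine ⟨he, U', hU'1.2.1, ⟨θ, hθ⟩, ?_⟩
        intro f hf
        have := (hR1 (hU'2 hf)).2 1
        simpa using this
      apply hU'3
      refine le_trans ?_ (Finset.le_sup (f := fun i => isoSpan G (U i))
        (show i ∈ J e from Finset.mem_filter.mpr ⟨Finset.mem_univ _, hbad⟩))
      intro f hf
      have hmem : (U'.subtype.comp θ.toLinearMap) ∈ homF G (U i) := by
        intro a b γ hab s
        exact hθ a b γ hab s
      have h6 := apply_mem_isoSpan (U i) ⟨_, hmem⟩ (θ.symm ⟨f, hf⟩)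
      simpa using h6
    have hdim : finrank ℚ R₂ ≤ 4 * (J e).card := by
      refine (Submodule.finrank_mono hle).trans (finrank_sup_le _ _ 4 ?_)
      intro i hi
      have hi' : e ∈ badSet z (U i) := (Finset.mem_filter.mp hi).2
      have h6 : finrank ℚ (U i) ≤ 2 := by
        by_contra hlt
        apply heB
        rw [hB]
        simp only [Finset.mem_univ, Set.iUnion_true, Set.mem_iUnion]
        refine ⟨en.symm ⟨i, by omega⟩, ?_⟩
        have h7 : U₁ (en.symm ⟨i, by omega⟩) = U i := by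
          simp only [U₁, Equiv.apply_symm_apply]
        rw [h7]
        exact hi'
      refine (finrank_isoSpan_le s₀ (U i) (hU i).1.2.1).trans ?_
      nlinarith
    have hR6 : 0 < finrank ℚ R₂ := by
      rw [Nat.pos_iff_ne_zero]
      intro h
      exact hR4 (Submodule.finrank_eq_zero.1 h)
    have hJ1 : 1 ≤ (J e).card := by omega
    have h8 : 2 * g ≤ N.index * (8 * k * (4 * (J e).card)) := by
      rw [← hcard]
      refine hR5.trans ?_
      exact Nat.mul_le_mul_left _ (Nat.mul_le_mul_left _ hdim)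
    have h9 : (2 * g : ℝ) ≤ 32 * (k * N.index) * (J e).card := by
      have h10 : ((2 * g : ℕ) : ℝ) ≤ ((N.index * (8 * k * (4 * (J e).card)) : ℕ) : ℝ) := by
        exact_mod_cast h8
      push_cast at h10
      linarith
    have hJ1' : (1 : ℝ) ≤ (J e).card := by exact_mod_cast hJ1
    rw [hμ]
    rcases le_total (1 : ℝ) ((k : ℝ) * N.index / (2 * g)) with h10 | h10
    · rw [min_eq_left h10]
      linarith
    · rw [min_eq_right h10]
      have : 32 * ((k : ℝ) * N.index / (2 * g)) * (J e).card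
          = 32 * (k * N.index) * (J e).card / (2 * g) := by ring
      rw [this, le_div_iff₀ (by positivity)]
      linarith
  have hTB : ((T \ B).ncard : ℝ) ≤ 32 * μ * ∑ i, ((badSet z (U i)).ncard : ℝ) := by
    have hfinTB : (T \ B).Finite := hTfin.subset Set.diff_subset
    rw [Set.ncard_eq_toFinset_card _ hfinTB]
    have h6 : ((hfinTB.toFinset.card : ℕ) : ℝ) = ∑ e ∈ hfinTB.toFinset, (1 : ℝ) := by simp
    rw [h6]
    calc ∑ e ∈ hfinTB.toFinset, (1 : ℝ)
        ≤ ∑ e ∈ hfinTB.toFinset, 32 * μ * ((J e).card : ℝ) := by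
          apply Finset.sum_le_sum
          intro e he
          exact hkey e (hfinTB.mem_toFinset.mp he)
      _ = 32 * μ * ∑ e ∈ hfinTB.toFinset, ((J e).card : ℝ) := by rw [Finset.mul_sum]
      _ = 32 * μ * ∑ i, ((hfinTB.toFinset.filter (fun e => e ∈ badSet z (U i))).card : ℝ) := by
          congr 1
          have h7 : ∀ e, ((J e).card : ℝ) = ∑ i, if e ∈ badSet z (U i) then (1 : ℝ) else 0 := by
            intro e
            simp only [J, Finset.card_filter]
            push_cast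
            rfl
          simp only [h7]
          rw [Finset.sum_comm]
          apply Finset.sum_congr rfl
          intro i _
          rw [Finset.card_filter]
          push_cast
          rfl
      _ ≤ 32 * μ * ∑ i, ((badSet z (U i)).ncard : ℝ) := by
          apply mul_le_mul_of_nonneg_left _ (by positivity)
          apply Finset.sum_le_sum
          intro i _
          rw [Set.ncard_eq_toFinset_card _ (hfin i)]
          exact_mod_cast Finset.card_le_card (by
            intro e he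
            rw [Finset.mem_filter] at he
            exact (hfin i).mem_toFinset.mpr he.2)
  have hTcard : (T.ncard : ℝ) ≤ ((T \ B).ncard : ℝ) + B.ncard := by
    have h6 : T.ncard ≤ (T \ B).ncard + B.ncard := by
      have h7 : T ⊆ (T \ B) ∪ B := by
        intro e he
        by_cases h : e ∈ B
        · exact Or.inr h
        · exact Or.inl ⟨he, h⟩
      exact (Set.ncard_le_ncard h7 ((hTfin.subset Set.diff_subset).union hBfin)).trans
        (Set.ncard_union_le _ _)
    exact_mod_cast h6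
  have hμ1 : μ ≤ 1 := min_le_left _ _
  calc (T.ncard : ℝ) ≤ 32 * μ * (C₁ * (r + l) * 2 ^ g) + C₂ * l * 2 ^ g := by
        refine hTcard.trans (add_le_add (hTB.trans ?_) hBcard)
        exact mul_le_mul_of_nonneg_left h5 (by positivity)
    _ = (32 * C₁ * (μ * r) + 32 * C₁ * (μ * l) + C₂ * l) * 2 ^ g := by ring
    _ ≤ ((32 * C₁ + C₂) * (μ * r + l)) * 2 ^ g := by
        apply mul_le_mul_of_nonneg_right _ h2g.le
        have h6 : μ * l ≤ l := by nlinarith
        nlinarith [mul_nonneg hC₂.le (mul_nonneg hμ0 hr0), mul_nonneg hC₁.le hl0]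

end Pool.Agent.Lib.MP_640417_ag.Sm
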