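import Pool.Agent.Lib.MP_640417_ag.Sm.Spec

/-!
# Singular matrices and relations constant on the cosets of a subgroup
-/

namespace Pool.Agent.Lib.MP_640417_ag.Sm

open Module Finset MulAction NumberField Pool.Agent.Lib.MP_640417_ag
  Pool.Agent.Lib.MP_640417_ag.Far Pool.Agent.Lib.MP_640417_ag.Full
  Pool.Agent.Lib.MP_640417_ag.Sharp Pool.Agent.Lib.MP_640417_ag.Wc

/-- Shift of the summation variable. -/
private lemma dihOut_shift {S G : Type} [Fintype S] [Group G] [MulAction G S] {R : Type*}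
    [AddCommMonoid R] (γ : G) (F : S → S → R) :
    ∑ s, F s (γ • s) = ∑ s, F (γ⁻¹ • s) s := by
  apply Fintype.sum_bijective (fun s => γ • s) (MulAction.bijective γ)
  intro s
  rw [inv_smul_smul]

private lemma dihOut_map_mul {R : Type*} [Ring R] (A B : Matrix (Fin 2) (Fin 2) ℤ) :
    (A * B).map (Int.cast : ℤ → R) = A.map (Int.cast : ℤ → R) * B.map (Int.cast : ℤ → R) := by
  ext i j
  simp only [Matrix.map_apply, Matrix.mul_apply, Int.cast_sum, Int.cast_mul]

private lemma dihOut_map_trace {R : Type*} [Ring R] (A : Matrix (Fin 2) (Fin 2) ℤ) :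
    (A.map (Int.cast : ℤ → R)).trace = ((A.trace : ℤ) : R) := by
  simp only [Matrix.trace, Matrix.diag_apply, Matrix.map_apply, Int.cast_sum]

/-- Independence over the rational numbers. -/
private lemma dihOut_rat {S G : Type} [Fintype S] [Group G] [MulAction G S] {z : G} {N : ℕ}
    (M : MatSys S G z 2 N) (hN : 0 < N) (C : Matrix (Fin 2) (Fin 2) ℚ)
    (hC : ∀ s, ((M.Φ s).map (Int.cast : ℤ → ℚ) * C).trace = 0) : C = 0 := by
  classical
  obtain ⟨b, hb⟩ := IsLocalization.exist_integer_multiples_of_finite (nonZeroDivisors ℤ)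
    (fun ij : Fin 2 × Fin 2 => C ij.1 ij.2)
  have hb0 : ((b : ℤ) : ℚ) ≠ 0 := by
    exact_mod_cast nonZeroDivisors.ne_zero b.2
  choose v hv using hb
  have hv' : ∀ i j, ((v (i, j) : ℤ) : ℚ) = (b : ℤ) * C i j := by
    intro i j
    have := hv (i, j)
    rw [zsmul_eq_mul] at this
    exact this
  let D : Matrix (Fin 2) (Fin 2) ℤ := fun i j => v (i, j)
  have hD : D.map (Int.cast : ℤ → ℚ) = ((b : ℤ) : ℚ) • C := by
    ext i j
    rw [Matrix.map_apply, Matrix.smul_apply, smul_eq_mul]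
    exact hv' i j
  have htr : ∀ s, (M.Φ s * D).trace = 0 := by
    intro s
    have h1 : (((M.Φ s * D).trace : ℤ) : ℚ) = 0 := by
      rw [← dihOut_map_trace, dihOut_map_mul, hD, Matrix.mul_smul, Matrix.trace_smul, hC s,
        smul_zero]
    exact_mod_cast h1
  obtain ⟨p, hp1, hp⟩ := Nat.exists_infinite_primes
    (N + ∑ ij : Fin 2 × Fin 2, (v ij).natAbs + 1)
  have hpN : ¬ p ∣ N := by
    intro h
    have := Nat.le_of_dvd hN h
    omega
  have h0 := M.indep p hp hpN (D.map (Int.cast : ℤ → ZMod p)) (by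
    intro s
    rw [← dihOut_map_mul, dihOut_map_trace, htr s, Int.cast_zero])
  have hD0 : ∀ i j, D i j = 0 := by
    intro i j
    have h1 := congrFun (congrFun h0 i) j
    rw [Matrix.map_apply, Matrix.zero_apply, ZMod.intCast_zmod_eq_zero_iff_dvd] at h1
    have h2 : (D i j).natAbs < p := by
      have h3 : (v (i, j)).natAbs ≤ ∑ ij : Fin 2 × Fin 2, (v ij).natAbs :=
        Finset.single_le_sum (f := fun ij => (v ij).natAbs) (fun _ _ => Nat.zero_le _)
          (Finset.mem_univ (i, j))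
      have h4 : (D i j).natAbs = (v (i, j)).natAbs := rfl
      omega
    have h5 : p ∣ (D i j).natAbs := by
      have := Int.natAbs_dvd_natAbs.mpr h1
      simpa using this
    exact Int.natAbs_eq_zero.mp (Nat.eq_zero_of_dvd_of_lt h5 h2)
  ext i j
  have h1 := hv' i j
  have h2 : v (i, j) = 0 := hD0 i j
  rw [h2, Int.cast_zero] at h1
  rcases mul_eq_zero.mp h1.symm with h | h
  · exact absurd h hb0
  · exact h

section

variable {S G : Type} [Fintype S] [Group G] [MulAction G S] {z : G} {N : ℕ}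

/-- The relations attached to a vector in the kernel. -/
private lemma dihOut_rel (M : MatSys S G z 2 N) (e : S → ℤ) (l : Fin 2 → ℤ)
    (hl : (∑ s, e s • M.Φ s).mulVec l = 0) (i : Fin 2) :
    (fun s => (M.Φ s).mulVec l i) ∈ oddRel z e := by
  rw [mem_oddRel]
  refine ⟨?_, ?_⟩
  · intro s
    simp only [M.odd s, Matrix.neg_mulVec, Pi.neg_apply]
  · intro γ
    have h1 : ∑ s, (M.Φ s).mulVec l i * e (γ • s)
        = ∑ s, (M.Φ (γ⁻¹ • s)).mulVec l i * e s :=
      dihOut_shift γ (fun s t => (M.Φ s).mulVec l i * e t)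
    have h2 : ∑ s, (M.Φ (γ⁻¹ • s)).mulVec l i * e s
        = (M.R γ⁻¹ * ∑ s, e s • M.Φ s).mulVec l i := by
      rw [Finset.mul_sum, Matrix.sum_mulVec, Finset.sum_apply]
      apply Finset.sum_congr rfl
      intro s _
      rw [M.smul, Matrix.mul_smul, Matrix.smul_mulVec, Pi.smul_apply, smul_eq_mul, mul_comm]
    change ∑ s, (M.Φ s).mulVec l i * e (γ • s) = 0
    rw [h1, h2, ← Matrix.mulVec_mulVec, hl, Matrix.mulVec_zero, Pi.zero_apply]

/-- Vectors in the kernel of a singular matrix whose relations are constant on the cosets. -/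
private lemma dihOut_fix (M : MatSys S G z 2 N) (s₀ : S) (K : Subgroup G) (e : S → ℤ)
    (hs : IsSgn z e) (hr : e ∉ relN s₀ z K) (l : Fin 2 → ℤ)
    (hl : (∑ s, e s • M.Φ s).mulVec l = 0) (ν : G) (hν : ν ∈ K) :
    (M.R ν * M.Φ s₀).mulVec l = (M.Φ s₀).mulVec l := by
  by_contra hcon
  obtain ⟨i, hi⟩ := Function.ne_iff.mp hcon
  apply hr
  refine ⟨hs, _, dihOut_rel M e l hl i, ν, 1, ?_, ?_⟩
  · rw [mul_one]
    exact K.inv_mem hν
  · simp only [one_smul, M.smul]
    exact hi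

/-- The kernel of a nonzero matrix is at most one-dimensional. -/
private lemma dihOut_prop (P : Matrix (Fin 2) (Fin 2) ℤ) (hP : P ≠ 0) (l m : Fin 2 → ℤ)
    (hl : P.mulVec l = 0) (hm : P.mulVec m = 0) : l 0 * m 1 = l 1 * m 0 := by
  have hP' : ∃ i, P i 0 ≠ 0 ∨ P i 1 ≠ 0 := by
    by_contra hcon
    push Not at hcon
    apply hP
    ext i j
    fin_cases j
    · exact (hcon i).1
    · exact (hcon i).2
  obtain ⟨i, hi⟩ := hP'
  have h1 := congrFun hl i
  have h2 := congrFun hm i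
  simp only [Matrix.mulVec, dotProduct, Fin.sum_univ_two, Pi.zero_apply] at h1 h2
  rcases hi with hi | hi
  · have h3 : P i 0 * (l 0 * m 1 - l 1 * m 0) = 0 := by
      linear_combination m 1 * h1 - l 1 * h2
    rcases mul_eq_zero.mp h3 with h | h
    · exact absurd h hi
    · linarith
  · have h3 : P i 1 * (l 0 * m 1 - l 1 * m 0) = 0 := by
      linear_combination l 0 * h2 - m 0 * h1
    rcases mul_eq_zero.mp h3 with h | h
    · exact absurd h hi
    · linarith

/-- A vector proportional to a vector in the kernel is in the kernel. -/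
private lemma dihOut_ker (B : Matrix (Fin 2) (Fin 2) ℤ) (l m : Fin 2 → ℤ) (hl0 : l ≠ 0)
    (hl : B.mulVec l = 0) (h : l 0 * m 1 = l 1 * m 0) : B.mulVec m = 0 := by
  have h0 : l 0 ≠ 0 ∨ l 1 ≠ 0 := by
    by_contra hcon
    push Not at hcon
    apply hl0
    funext j
    fin_cases j
    · exact hcon.1
    · exact hcon.2
  funext i
  have h1 := congrFun hl i
  simp only [Matrix.mulVec, dotProduct, Fin.sum_univ_two, Pi.zero_apply] at h1 ⊢
  rcases h0 with h0 | h0
  · have h3 : l 0 * (B i 0 * m 0 + B i 1 * m 1) = 0 := by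
      linear_combination m 0 * h1 + B i 1 * h
    rcases mul_eq_zero.mp h3 with h | h
    · exact absurd h h0
    · exact h
  · have h3 : l 1 * (B i 0 * m 0 + B i 1 * m 1) = 0 := by
      linear_combination m 1 * h1 - B i 0 * h
    rcases mul_eq_zero.mp h3 with h | h
    · exact absurd h h0
    · exact h

/-- the rational vector -/
private def doV (l : Fin 2 → ℤ) : Fin 2 → ℚ := fun i => (l i : ℚ)

/-- the functions attached to a vector -/
private def doL (M : MatSys S G z 2 N) (l : Fin 2 → ℤ) : (Fin 2 → ℚ) →ₗ[ℚ] (S → ℚ) where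
  toFun a s := a ⬝ᵥ ((M.Φ s).map (Int.cast : ℤ → ℚ)).mulVec (doV l)
  map_add' := by
    intro a b
    funext s
    simp only [add_dotProduct, Pi.add_apply]
  map_smul' := by
    intro c a
    funext s
    simp only [smul_dotProduct, Pi.smul_apply, RingHom.id_apply]

private lemma doL_apply (M : MatSys S G z 2 N) (l : Fin 2 → ℤ) (a : Fin 2 → ℚ) (s : S) :
    doL M l a s = a ⬝ᵥ ((M.Φ s).map (Int.cast : ℤ → ℚ)).mulVec (doV l) := rfl

private lemma do_stab (M : MatSys S G z 2 N) (l : Fin 2 → ℤ) :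
    IsStab G (LinearMap.range (doL M l)) := by
  intro f hf γ
  obtain ⟨a, rfl⟩ := hf
  refine ⟨Matrix.vecMul a ((M.R γ).map (Int.cast : ℤ → ℚ)), ?_⟩
  funext s
  rw [doL_apply, doL_apply, M.smul, dihOut_map_mul, ← Matrix.mulVec_mulVec,
    ← Matrix.dotProduct_mulVec]

private lemma do_odd (M : MatSys S G z 2 N) (l : Fin 2 → ℤ) :
    IsOddSp z (LinearMap.range (doL M l)) := by
  intro f hf s
  obtain ⟨a, rfl⟩ := hf
  have h : (-(M.Φ s)).map (Int.cast : ℤ → ℚ) = - (M.Φ s).map (Int.cast : ℤ → ℚ) := by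
    ext i j
    simp
  rw [doL_apply, doL_apply, M.odd, h, Matrix.neg_mulVec, dotProduct_neg]

private lemma do_finrank (M : MatSys S G z 2 N) (hN : 0 < N) (l : Fin 2 → ℤ) (hl : l ≠ 0) :
    finrank ℚ (LinearMap.range (doL M l)) = 2 := by
  have hinj : Function.Injective (doL M l) := by
    rw [← LinearMap.ker_eq_bot, LinearMap.ker_eq_bot']
    intro a ha
    obtain ⟨j, hj⟩ := Function.ne_iff.mp hl
    have h1 : Matrix.vecMulVec (doV l) a = 0 := by
      apply dihOut_rat M hN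
      intro s
      have h2 := congrFun ha s
      rw [doL_apply] at h2
      simp only [Pi.zero_apply, dotProduct, Matrix.mulVec, Fin.sum_univ_two] at h2
      simp only [Matrix.trace, Matrix.diag_apply, Matrix.mul_apply, Matrix.vecMulVec_apply,
        Fin.sum_univ_two]
      linear_combination h2
    funext i
    have h2 := congrFun (congrFun h1 j) i
    rw [Matrix.vecMulVec_apply, Matrix.zero_apply] at h2
    rcases mul_eq_zero.mp h2 with h | h
    · have h3 : ((l j : ℤ) : ℚ) = 0 := h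
      have h4 : l j = 0 := by exact_mod_cast h3
      exact absurd h4 hj
    · exact h
  rw [LinearMap.finrank_range_of_inj hinj]
  simp

private lemma do_sum (M : MatSys S G z 2 N) (l : Fin 2 → ℤ) (e : S → ℤ) (a : Fin 2 → ℚ) :
    ∑ s, doL M l a s * (e s : ℚ) = a ⬝ᵥ doV ((∑ s, e s • M.Φ s).mulVec l) := by
  have h1 : ∀ i, ∑ s, (((M.Φ s).map (Int.cast : ℤ → ℚ)).mulVec (doV l)) i * (e s : ℚ)
      = doV ((∑ s, e s • M.Φ s).mulVec l) i := by
    intro i
    simp only [doV, Matrix.sum_mulVec, Finset.sum_apply, Matrix.smul_mulVec, Pi.smul_apply,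
      smul_eq_mul]
    push_cast
    apply Finset.sum_congr rfl
    intro s _
    simp only [Matrix.mulVec, dotProduct, Matrix.map_apply, doV]
    push_cast
    ring
  simp only [doL_apply, dotProduct, ← h1, Finset.sum_mul, Finset.mul_sum]
  rw [Finset.sum_comm]
  apply Finset.sum_congr rfl
  intro i _
  apply Finset.sum_congr rfl
  intro s _
  ring

private lemma dihOut_sgn_fin (z : G) (P : (S → ℤ) → Prop) :
    {e : S → ℤ | IsSgn z e ∧ P e}.Finite := by
  have h : ({f : S → ℤ | ∀ s, f s ∈ ({1, -1} : Set ℤ)}).Finite :=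
    Set.Finite.pi' fun _ => Set.toFinite _
  refine h.subset ?_
  intro e he s
  have := he.1.1 s
  simpa using this

end

/-- **Singular matrices and relations constant on the cosets of a subgroup.** -/
theorem pDihOut (hLocal : StLocal) : StDihOut := by
  classical
  obtain ⟨C, hC, hL⟩ := hLocal 2
  refine ⟨C, hC, ?_⟩
  intro n _ S G _ _ _ _ _ s₀ z hzz X hX hX1 N H M hR hNH
  have hn : 0 < 2 * n := by
    have := NeZero.pos n
    omega
  have hXr : (0 : ℝ) < X.card := by exact_mod_cast hX1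
  obtain ⟨ν, hν, hνH⟩ := SetLike.not_le_iff_exists.mp hNH
  have hRν : M.R ν ≠ 1 := fun h => hνH ((hR ν).mp h)
  rcases (small M X.card \ relN s₀ z N).eq_empty_or_nonempty with h0 | ⟨e₀, he₀⟩
  · rw [h0, Set.ncard_empty, Nat.cast_zero]
    positivity
  obtain ⟨l₀, hl₀, hl₀'⟩ := Matrix.exists_mulVec_eq_zero_iff.mpr he₀.1.2.1
  -- the matrix `(R ν - 1) Φ s₀`
  obtain ⟨s₁, hs₁⟩ := M.base
  obtain ⟨γ, hγ⟩ := MulAction.exists_smul_eq G s₁ s₀
  have hΦ : M.Φ s₀ = M.R γ := by
    rw [← hγ, M.smul, hs₁, mul_one]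
  have hP : M.R ν * M.Φ s₀ - M.Φ s₀ ≠ 0 := by
    intro h
    apply hRν
    have h1 : M.R ν * M.R γ = M.R γ := by
      rw [← hΦ]
      exact sub_eq_zero.mp h
    have h2 : M.R γ * M.R γ⁻¹ = 1 := by
      rw [← map_mul, mul_inv_cancel, map_one]
    calc M.R ν = M.R ν * (M.R γ * M.R γ⁻¹) := by rw [h2, mul_one]
      _ = M.R γ * M.R γ⁻¹ := by rw [← mul_assoc, h1]
      _ = 1 := h2
  have hfix : ∀ e ∈ small M X.card \ relN s₀ z N, ∀ l : Fin 2 → ℤ,
      (∑ s, e s • M.Φ s).mulVec l = 0 → (M.R ν * M.Φ s₀ - M.Φ s₀).mulVec l = 0 := by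
    intro e he l hl
    rw [Matrix.sub_mulVec, dihOut_fix M s₀ N e he.1.1 he.2 l hl ν hν, sub_self]
  have hker : ∀ e ∈ small M X.card \ relN s₀ z N, (∑ s, e s • M.Φ s).mulVec l₀ = 0 := by
    intro e he
    obtain ⟨l, hl, hl'⟩ := Matrix.exists_mulVec_eq_zero_iff.mpr he.1.2.1
    exact dihOut_ker _ l l₀ hl hl' (dihOut_prop _ hP l l₀ (hfix e he l hl') (hfix e₀ he₀ l₀ hl₀'))
  have h1 := hL S G z hzz X hX hX1 (LinearMap.range (doL M l₀)) (do_stab M l₀)
    (do_odd M l₀) (do_finrank M hn l₀ hl₀) e₀ he₀.1.1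
  have e2 : (X.card : ℝ) ^ (-(((2 : ℕ) : ℝ) / 2)) = (X.card : ℝ)⁻¹ := by
    have h2 : (-(((2 : ℕ) : ℝ) / 2)) = -1 := by norm_num
    rw [h2, Real.rpow_neg_one]
  rw [e2, ← div_eq_mul_inv] at h1
  refine le_trans ?_ h1
  have hs : small M X.card \ relN s₀ z N ⊆ {e : S → ℤ | IsSgn z e ∧
      ∀ f ∈ LinearMap.range (doL M l₀),
      ∑ s, f s * (e s : ℚ) = ∑ s, f s * (e₀ s : ℚ)} := by
    intro e he
    refine ⟨he.1.1, ?_⟩
    rintro f ⟨a, rfl⟩
    rw [do_sum, do_sum, hker e he, hker e₀ he₀]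
  exact_mod_cast Set.ncard_le_ncard hs (dihOut_sgn_fin z _)

end Pool.Agent.Lib.MP_640417_ag.Sm
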